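import Pool.Agent.TH991.Nut.Stmts

set_option autoImplicit false
open Finset

namespace Pool.Agent.TH991.Nut

theorem arith' (ρ : ℕ) (hρ : 1 ≤ ρ) (h5 : ¬ 5 ∣ ρ) (n : ℕ)
    (hn : (ρ + 5).pred * (2 * ρ).pred + (ρ + 5) ≤ n) (hev : Even (n * ρ)) :
    ∃ t j : ℕ, 1 ≤ t ∧ n = t * (ρ + 5) + j * (2 * ρ) := by
  have hd : (ρ + 5).gcd (2 * ρ) ∣ n - (ρ + 5) := by
    set d := (ρ + 5).gcd (2 * ρ) with hdd
    have h1 : d ∣ ρ + 5 := Nat.gcd_dvd_left _ _
    have h2 : d ∣ 2 * ρ := Nat.gcd_dvd_right _ _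
    have h3 : d ∣ 10 := by
      have h4 : d ∣ 2 * (ρ + 5) := h1.mul_left 2
      have h6 := Nat.dvd_sub h4 h2
      have h7 : 2 * (ρ + 5) - 2 * ρ = 10 := by omega
      rwa [h7] at h6
    have h5d : ¬ 5 ∣ d := by
      intro h
      have := h.trans h1
      omega
    have h2d : d ∣ 2 := by
      have hcop : Nat.Coprime d 5 := by
        rw [Nat.coprime_comm, Nat.Prime.coprime_iff_not_dvd (by norm_num)]
        exact h5d
      exact hcop.dvd_of_dvd_mul_right (show d ∣ 2 * 5 from h3)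
    have hn' : d ∣ n := by
      rcases (Nat.dvd_prime Nat.prime_two).1 h2d with h | h
      · rw [h]; exact one_dvd _
      · rw [h] at h1 ⊢
        have hodd : ¬ Even ρ := by
          rw [Nat.not_even_iff_odd]
          obtain ⟨c, hc⟩ := h1
          exact ⟨c - 3, by omega⟩
        rcases Nat.even_mul.1 hev with h | h
        · exact even_iff_two_dvd.1 h
        · exact absurd h hodd
    exact Nat.dvd_sub hn' h1
  obtain ⟨a, b, hab⟩ := Nat.exists_add_mul_eq_of_gcd_dvd_of_mul_pred_le (ρ + 5) (2 * ρ)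
    (n - (ρ + 5)) hd (by omega)
  refine ⟨a + 1, b, by omega, ?_⟩
  have : ρ + 5 ≤ n := by
    have : 0 ≤ (ρ + 5).pred * (2 * ρ).pred := Nat.zero_le _
    omega
  have h9 : (a + 1) * (ρ + 5) = a * (ρ + 5) + (ρ + 5) := by ring
  omega

theorem arith : St_arith := fun ρ hρ h5 =>
  ⟨(ρ + 5).pred * (2 * ρ).pred + (ρ + 5), fun n hn hev => arith' ρ hρ h5 n hn hev⟩

end Pool.Agent.TH991.Nut
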