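import Pool.Agent.TH991.Nut.Stmts
import Pool.Agent.TH903.Nut.Fowler

/-!
# Fowler's construction: the statement `St_fowler`

Transfer of `Pool.Agent.TH903.Nut.fowler` (helper753) to the definitions of
`Pool/Agent/TH991/Nut/Main.lean`.
-/

set_option autoImplicit false
open Finset

namespace Pool.Agent.TH991.Nut

namespace Fow

theorem mulVec_iff {V : Type} [Fintype V] [DecidableEq V] (G : SimpleGraph V)
    [DecidableRel G.Adj] (y : V → ℝ) :
    (G.adjMatrix ℝ).mulVec y = 0 ↔ Pool.Agent.TH903.Nut.InKer G y := by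
  have key : ∀ v, (G.adjMatrix ℝ).mulVec y v = ∑ u : V, (if G.Adj v u then y u else 0) := by
    intro v
    simp only [Matrix.mulVec, dotProduct, SimpleGraph.adjMatrix_apply, ite_mul, one_mul, zero_mul]
  rw [Pool.Agent.TH903.Nut.inKer_iff]
  constructor
  · intro h v
    have h1 := congrFun h v
    rw [key v] at h1
    have h2 : (0 : V → ℝ) v = 0 := rfl
    rw [h2] at h1
    refine Eq.trans (Finset.sum_congr rfl fun u _ => ?_) h1
    by_cases hu : G.Adj v u
    · rw [if_pos hu, if_pos hu]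
    · rw [if_neg hu, if_neg hu]
  · intro h
    funext v
    rw [key v]
    have h1 := h v
    show _ = (0 : ℝ)
    refine Eq.trans (Finset.sum_congr rfl fun u _ => ?_) h1
    by_cases hu : G.Adj v u
    · rw [if_pos hu, if_pos hu]
    · rw [if_neg hu, if_neg hu]

theorem nut_iff {V : Type} [Fintype V] [DecidableEq V] (G : SimpleGraph V)
    [DecidableRel G.Adj] : IsNut G ↔ Pool.Agent.TH903.Nut.IsNut G := by
  constructor
  · rintro ⟨h2, x, hx, hy⟩
    refine ⟨h2, x, hx, (mulVec_iff G x).1 ((hy x).2 ⟨1, (one_smul ℝ x).symm⟩), fun y hk => ?_⟩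
    obtain ⟨c, hc⟩ := (hy y).1 ((mulVec_iff G y).2 hk)
    exact ⟨c, fun v => by rw [hc]; rfl⟩
  · rintro ⟨h2, x, hx, hk, hy⟩
    refine ⟨h2, x, hx, fun y => ⟨fun h => ?_, ?_⟩⟩
    · obtain ⟨c, hc⟩ := hy y ((mulVec_iff G y).1 h)
      exact ⟨c, funext fun v => hc v⟩
    · rintro ⟨c, rfl⟩
      rw [Matrix.mulVec_smul, (mulVec_iff G x).2 hk, smul_zero]

theorem reg_iff {V : Type} [Fintype V] [DecidableEq V] (G : SimpleGraph V)
    [DecidableRel G.Adj] (ρ : ℕ) : G.IsRegularOfDegree ρ ↔ Pool.Agent.TH903.Nut.IsReg G ρ := by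
  have key : ∀ v, ((G.degree v : ℕ) : ℝ) = ∑ u : V, (if G.Adj v u then (1 : ℝ) else 0) := by
    intro v
    rw [← Finset.sum_filter, Finset.sum_const, nsmul_eq_mul, mul_one,
      ← SimpleGraph.card_neighborFinset_eq_degree, SimpleGraph.neighborFinset_eq_filter]
  have key2 : ∀ v, ((G.degree v : ℕ) : ℝ) =
      ∑ u : V, (@ite ℝ (G.Adj v u) (Classical.propDecidable _) (1 : ℝ) 0) := by
    intro v
    rw [key v]
    refine Finset.sum_congr rfl fun u _ => ?_
    by_cases hu : G.Adj v u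
    · rw [if_pos hu, if_pos hu]
    · rw [if_neg hu, if_neg hu]
  rw [Pool.Agent.TH903.Nut.isReg_iff]
  constructor
  · intro h v
    have h1 := key2 v
    rw [h v] at h1
    exact h1.symm
  · intro h v
    have h1 := (key2 v).trans (h v)
    exact_mod_cast h1

theorem mem_iff (ρ n : ℕ) : n ∈ N ρ ↔ n ∈ Pool.Agent.TH903.Nut.N ρ := by
  constructor
  · rintro ⟨V, _, _, G, _, hc, hr, hn⟩
    rw [← hc]
    exact Pool.Agent.TH903.Nut.mem_N_of G ((nut_iff G).1 hn) ((reg_iff G ρ).1 hr)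
  · rintro ⟨G, hn, hr⟩
    classical
    exact ⟨Fin n, inferInstance, inferInstance, G, inferInstance, Fintype.card_fin n,
      (reg_iff G ρ).2 hr, (nut_iff G).2 hn⟩

end Fow

theorem fowler : St_fowler := fun ρ n hρ h =>
  (Fow.mem_iff ρ (n + 2 * ρ)).2 (Pool.Agent.TH903.Nut.fowler hρ ((Fow.mem_iff ρ n).1 h))

end Pool.Agent.TH991.Nut
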