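import Pool.Agent.TH991.Nut.Stmts

/-! # NG: cyclic gluing of `t` copies of a nut graph along an edge -/

set_option autoImplicit false
open Finset

namespace Pool.Agent.TH991.Nut

/-- adjacency in the cyclic gluing -/
def gadj {V : Type} (G : SimpleGraph V) (a b : V) (t : ℕ) (x y : ZMod t × V) : Prop :=
  (x.1 = y.1 ∧ G.Adj x.2 y.2 ∧ ¬(x.2 = a ∧ y.2 = b) ∧ ¬(x.2 = b ∧ y.2 = a)) ∨
    (x.2 = b ∧ y.2 = a ∧ y.1 = x.1 + 1) ∨ (x.2 = a ∧ y.2 = b ∧ x.1 = y.1 + 1)

/-- the cyclic gluing of `t` copies of `G` along the edge `a b` -/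
def GG {V : Type} (G : SimpleGraph V) (a b : V) (hab : a ≠ b) (t : ℕ) :
    SimpleGraph (ZMod t × V) where
  Adj := gadj G a b t
  symm := ⟨by
    rintro x y (⟨h1, h2, h3, h4⟩ | ⟨h1, h2, h3⟩ | ⟨h1, h2, h3⟩)
    · exact Or.inl ⟨h1.symm, h2.symm, fun h => h4 ⟨h.2, h.1⟩, fun h => h3 ⟨h.2, h.1⟩⟩
    · exact Or.inr (Or.inr ⟨h2, h1, h3⟩)
    · exact Or.inr (Or.inl ⟨h2, h1, h3⟩)⟩
  loopless := ⟨by
    rintro x (⟨-, h2, -⟩ | ⟨h1, h2, -⟩ | ⟨h1, h2, -⟩)
    · exact G.loopless.irrefl _ h2
    · exact hab (h2.symm.trans h1)
    · exact hab (h1.symm.trans h2)⟩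

open Classical in
theorem gadj_ite {V : Type} (G : SimpleGraph V) (a b : V) (hG : G.Adj a b) (t : ℕ)
    (y : ZMod t × V → ℝ) (i j : ZMod t) (v w : V) :
    (if gadj G a b t (i, v) (j, w) then y (j, w) else 0) =
      (if j = i then ((if G.Adj v w then y (j, w) else 0)
        - (if w = b then (if v = a then y (j, w) else 0) else 0)
        - (if w = a then (if v = b then y (j, w) else 0) else 0)) else 0)
      + (if j = i + 1 then (if w = a then (if v = b then y (j, w) else 0) else 0) else 0)
      + (if j = i - 1 then (if w = b then (if v = a then y (j, w) else 0) else 0) else 0) := by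
  have hab : a ≠ b := hG.ne
  have hG' := hG.symm
  have e1 : (j = i - 1) ↔ (i = j + 1) := by rw [eq_sub_iff_add_eq, eq_comm]
  simp only [gadj, e1]
  by_cases hva : v = a
  · subst hva
    by_cases hwb : w = b
    · subst hwb
      by_cases hji : j = i
      · subst hji
        simp [hG, hab, hab.symm]
      · have hij : ¬ i = j := fun h => hji h.symm
        simp [hab, hab.symm, hji, hij]
    · by_cases hji : j = i
      · subst hji
        simp [hab, hwb]
      · have hij : ¬ i = j := fun h => hji h.symm
        simp [hab, hwb, hji, hij]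
  · by_cases hvb : v = b
    · subst hvb
      by_cases hwa : w = a
      · subst hwa
        by_cases hji : j = i
        · subst hji
          simp [hG', hab, hab.symm]
        · have hij : ¬ i = j := fun h => hji h.symm
          simp [hab, hab.symm, hji, hij]
      · by_cases hji : j = i
        · subst hji
          simp [hab.symm, hwa]
        · have hij : ¬ i = j := fun h => hji h.symm
          simp [hab.symm, hwa, hji, hij]
    · by_cases hji : j = i
      · subst hji
        simp [hva, hvb]
      · have hij : ¬ i = j := fun h => hji h.symm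
        simp [hva, hvb, hji, hij]

open Classical in
theorem gadj_sum {V : Type} [Fintype V] (G : SimpleGraph V) (a b : V) (hG : G.Adj a b) (t : ℕ)
    [NeZero t] (y : ZMod t × V → ℝ) (i : ZMod t) (v : V) :
    (∑ x : ZMod t × V, (if gadj G a b t (i, v) x then y x else 0)) =
      (∑ w, (if G.Adj v w then y (i, w) else 0)) + (if v = b then y (i + 1, a) - y (i, a) else 0)
        + (if v = a then y (i - 1, b) - y (i, b) else 0) := by
  rw [Fintype.sum_prod_type_right]
  simp_rw [gadj_ite G a b hG t y, Finset.sum_add_distrib, Finset.sum_ite_eq', Finset.mem_univ,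
    if_true, Finset.sum_sub_distrib, Finset.sum_ite_eq', Finset.mem_univ, if_true]
  split_ifs <;> ring

theorem zmod_const {t : ℕ} [NeZero t] (f : ZMod t → ℝ) (h : ∀ i, f (i + 1) = f i) (i : ZMod t) :
    f i = f 0 := by
  have h1 : ∀ n : ℕ, f (n : ZMod t) = f 0 := by
    intro n
    induction n with
    | zero => simp
    | succ n ih => rw [Nat.cast_succ, h, ih]
  have h2 := h1 i.val
  rwa [ZMod.natCast_zmod_val] at h2

theorem mulVec_ite {V : Type} [Fintype V] [DecidableEq V] (G : SimpleGraph V) [DecidableRel G.Adj]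
    (y : V → ℝ) (v : V) :
    (G.adjMatrix ℝ).mulVec y v = ∑ w, (if G.Adj v w then y w else 0) := by
  simp only [Matrix.mulVec, dotProduct, SimpleGraph.adjMatrix_apply, ite_mul, one_mul, zero_mul]

theorem glue_two {ρ t : ℕ} (ht : 1 < t) {V : Type} [Fintype V] [DecidableEq V] (G : SimpleGraph V)
    [DecidableRel G.Adj] (a b : V) (g x0 : V → ℝ) (hreg : G.IsRegularOfDegree ρ)
    (hab : G.Adj a b) (hcard : 2 ≤ Fintype.card V) (hg : ∀ v, g v ≠ 0)
    (hker : ∀ y : V → ℝ, (G.adjMatrix ℝ).mulVec y = 0 ↔ ∃ c : ℝ, y = c • g)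
    (hgab : g a = g b) (hx0 : (G.adjMatrix ℝ).mulVec x0 = Pi.single a 1 - Pi.single b 1)
    (hX : x0 a = x0 b) : t * Fintype.card V ∈ N ρ := by
  classical
  have hnz : NeZero t := ⟨by omega⟩
  have hne : a ≠ b := hab.ne
  have hS : ∀ (y : ZMod t × V → ℝ) (i : ZMod t) (v : V),
      ((GG G a b hne t).adjMatrix ℝ).mulVec y (i, v) =
        (G.adjMatrix ℝ).mulVec (fun w => y (i, w)) v
          + (if v = b then y (i + 1, a) - y (i, a) else 0)
          + (if v = a then y (i - 1, b) - y (i, b) else 0) := by
    intro y i v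
    rw [mulVec_ite, mulVec_ite]
    have h := gadj_sum G a b hab t y i v
    convert h using 1
    all_goals congr! 
  refine ⟨ZMod t × V, inferInstance, inferInstance, GG G a b hne t, inferInstance, ?_, ?_, ?_, 
    fun x => g x.2, fun x => hg x.2, ?_⟩
  · rw [Fintype.card_prod, ZMod.card]
  · rintro ⟨i, v⟩
    have h1 := hS (Function.const _ 1) i v
    rw [SimpleGraph.adjMatrix_mulVec_const_apply] at h1
    have h2 : (G.adjMatrix ℝ).mulVec (fun _ => (1 : ℝ)) v = (ρ : ℝ) := by
      have h3 := SimpleGraph.adjMatrix_mulVec_const_apply (G := G) (a := (1 : ℝ)) (v := v)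
      rw [hreg v, mul_one] at h3
      exact h3
    have h4 : (G.adjMatrix ℝ).mulVec (fun w => Function.const (ZMod t × V) (1 : ℝ) (i, w)) v = ρ :=
      h2
    rw [h4] at h1
    simp only [Function.const_apply, sub_self, ite_self, add_zero, mul_one] at h1
    exact_mod_cast h1
  · rw [Fintype.card_prod, ZMod.card]
    nlinarith
  · intro y
    constructor
    · intro hy
      -- the equations
      have h1 : ∀ i : ZMod t, (G.adjMatrix ℝ).mulVec (fun w => y (i, w)) =
          (y (i, b) - y (i - 1, b)) • Pi.single a 1 + (y (i, a) - y (i + 1, a)) • Pi.single b 1 := by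
        intro i
        funext v
        have h2 := hS y i v
        rw [hy, Pi.zero_apply] at h2
        rw [Pi.add_apply, Pi.smul_apply, Pi.smul_apply, Pi.single_apply, Pi.single_apply,
          smul_eq_mul, smul_eq_mul]
        by_cases hva : v = a
        · subst hva
          simp only [if_true, if_neg hne] at h2 ⊢
          linarith
        · by_cases hvb : v = b
          · subst hvb
            simp only [if_true, if_neg hva] at h2 ⊢
            linarith
          · simp only [if_neg hva, if_neg hvb] at h2 ⊢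
            linarith
      have hAg : (G.adjMatrix ℝ).mulVec g = 0 := (hker g).2 ⟨1, (one_smul _ _).symm⟩
      have hq : ∀ i : ZMod t, y (i, a) - y (i + 1, a) = -(y (i, b) - y (i - 1, b)) := by
        intro i
        have h2 : g ⬝ᵥ (G.adjMatrix ℝ).mulVec (fun w => y (i, w)) = 0 := by
          rw [Matrix.dotProduct_mulVec, ← Matrix.mulVec_transpose, SimpleGraph.transpose_adjMatrix,
            hAg, zero_dotProduct]
        rw [h1 i, dotProduct_add, dotProduct_smul, dotProduct_smul, dotProduct_single,
          dotProduct_single, ← hgab, smul_eq_mul, smul_eq_mul, mul_one] at h2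
        have h3 : g a * ((y (i, a) - y (i + 1, a)) + (y (i, b) - y (i - 1, b))) = 0 := by
          linarith
        have h4 := (mul_eq_zero.1 h3).resolve_left (hg a)
        linarith
      have hs : ∀ i : ZMod t, ∃ s : ℝ, ∀ v, y (i, v) = (y (i, b) - y (i - 1, b)) * x0 v + s * g v := by
        intro i
        have h2 : (G.adjMatrix ℝ).mulVec
            ((fun w => y (i, w)) - (y (i, b) - y (i - 1, b)) • x0) = 0 := by
          rw [Matrix.mulVec_sub, Matrix.mulVec_smul, hx0, h1 i, hq i, smul_sub, neg_smul]
          abel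
        obtain ⟨s, hs⟩ := (hker _).1 h2
        refine ⟨s, fun v => ?_⟩
        have h3 := congrFun hs v
        simp only [Pi.sub_apply, Pi.smul_apply, smul_eq_mul] at h3
        linarith
      choose s hs using hs
      have hw : ∀ i, y (i, a) = y (i, b) := by
        intro i
        have h2 := hs i a
        have h3 := hs i b
        rw [hX, hgab] at h2
        exact h2.trans h3.symm
      have hp : ∀ i, (fun i => y (i, b) - y (i - 1, b)) (i + 1) =
          (fun i => y (i, b) - y (i - 1, b)) i := by
        intro i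
        have h2 := hq i
        rw [hw i, hw (i + 1)] at h2
        simp only [add_sub_cancel_right]
        linarith
      have hp2 : ∀ i : ZMod t, y (i, b) - y (i - 1, b) =
          y ((0 : ZMod t), b) - y ((0 : ZMod t) - 1, b) :=
        zmod_const (fun i => y (i, b) - y (i - 1, b)) hp
      have hsum : ∑ i : ZMod t, (y (i, b) - y (i - 1, b)) = 0 := by
        rw [Finset.sum_sub_distrib, sub_eq_zero]
        exact (Equiv.sum_comp (Equiv.subRight (1 : ZMod t)) (fun i => y (i, b))).symm
      have hp0 : ∀ i : ZMod t, y (i, b) - y (i - 1, b) = 0 := by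
        have h2 : ∑ i : ZMod t, (y (i, b) - y (i - 1, b)) =
            ∑ _i : ZMod t, (y ((0 : ZMod t), b) - y ((0 : ZMod t) - 1, b)) :=
          Finset.sum_congr rfl (fun i _ => hp2 i)
        rw [hsum, Finset.sum_const, Finset.card_univ, ZMod.card, nsmul_eq_mul] at h2
        have h3 : (t : ℝ) ≠ 0 := by exact_mod_cast (NeZero.ne t)
        have h4 := (mul_eq_zero.1 h2.symm).resolve_left h3
        intro i
        exact (hp2 i).trans h4
      have hw2 : ∀ i : ZMod t, y (i, b) = y ((0 : ZMod t), b) := by
        refine zmod_const (fun i => y (i, b)) (fun i => ?_)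
        have h2 := hp0 (i + 1)
        rw [add_sub_cancel_right] at h2
        show y (i + 1, b) = y (i, b)
        linarith
      refine ⟨s 0, ?_⟩
      funext x
      obtain ⟨i, v⟩ := x
      have h5 : ∀ i v, y (i, v) = s i * g v := by
        intro i v
        rw [hs i v, hp0 i, zero_mul, zero_add]
      have h6 : s i = s 0 := by
        have h7 := hw2 i
        rw [h5, h5] at h7
        exact mul_right_cancel₀ (hg b) h7
      show y (i, v) = s 0 * g v
      rw [h5, h6]
    · rintro ⟨c, rfl⟩
      funext x
      obtain ⟨i, v⟩ := x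
      rw [hS]
      have h2 : (G.adjMatrix ℝ).mulVec (fun w => (c • fun x : ZMod t × V => g x.2) (i, w)) = 0 :=
        (hker _).2 ⟨c, rfl⟩
      rw [h2]
      simp

theorem glue : St_glue := by
  intro ρ t V _ _ G _ a b g x0 ht hreg hab hcard hg hker hgab hx0 hX
  rcases Nat.lt_or_ge 1 t with h2 | h1
  · exact glue_two h2 G a b g x0 hreg hab hcard hg hker hgab hx0 hX
  · obtain rfl : t = 1 := by omega
    refine ⟨V, inferInstance, inferInstance, G, inferInstance, ?_, hreg, hcard, g, hg, hker⟩
    rw [one_mul]

end Pool.Agent.TH991.Nut
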