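import Pool.Agent.TH991.Nut.Seed
import Pool.Agent.TH991.Nut.Arith
import Pool.Agent.TH991.Nut.Fowler
import Pool.Agent.TH991.Nut.Glue

set_option autoImplicit false
open Finset

namespace Pool.Agent.TH991.Nut

/-- `ρ + 5` is the order of a `ρ`-regular nut graph, for every `ρ ≥ 10`. -/
theorem order_five {ρ : ℕ} (hρ : 10 ≤ ρ) : ρ + 5 ∈ Pool.Agent.TH903.Nut.N ρ := by
  rw [← Fow.mem_iff]
  have h := mem_five (n := ρ + 5) (by omega)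
  rwa [Nat.add_sub_cancel] at h

theorem order_glue {ρ t : ℕ} (hρ : 10 ≤ ρ) (h11 : ρ ≠ 11) (h13 : ρ ≠ 13) (ht : 1 ≤ t) :
    t * (ρ + 5) ∈ N ρ := by
  obtain ⟨V, i1, i2, G, i3, a, b, g, x0, hcard, hreg, hab, h2, hg, hker, hgab, hx0, hx⟩ :=
    seed (n := ρ + 5) (by omega) (by omega) (by omega)
  rw [Nat.add_sub_cancel] at hreg
  have h := glue ρ t V G a b g x0 ht hreg hab h2 hg hker hgab hx0 hx
  rwa [hcard] at h

theorem order_all {ρ t : ℕ} (hρ : 10 ≤ ρ) (h11 : ρ ≠ 11) (h13 : ρ ≠ 13) (ht : 1 ≤ t) (j : ℕ) :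
    t * (ρ + 5) + j * (2 * ρ) ∈ N ρ := by
  induction j with
  | zero => simpa using order_glue hρ h11 h13 ht
  | succ j ih =>
    have h := fowler ρ _ (by omega) ih
    have e : t * (ρ + 5) + j * (2 * ρ) + 2 * ρ = t * (ρ + 5) + (j + 1) * (2 * ρ) := by ring
    rwa [e] at h

/-- For every `ρ ≥ 10` (`ρ ≠ 11, 13`), `t ≥ 1`, `j ≥ 0`: `t (ρ + 5) + 2 ρ j ∈ N ρ`. -/
theorem orders {ρ t : ℕ} (hρ : 10 ≤ ρ) (h11 : ρ ≠ 11) (h13 : ρ ≠ 13) (ht : 1 ≤ t) (j : ℕ) :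
    t * (ρ + 5) + j * (2 * ρ) ∈ Pool.Agent.TH903.Nut.N ρ := by
  rw [← Fow.mem_iff]
  exact order_all hρ h11 h13 ht j

/-- For every even `ρ ≥ 10` not divisible by `5` every large `n` is in `N ρ`. -/
theorem cofin_even {ρ n : ℕ} (hρ : 10 ≤ ρ) (h5 : ¬ 5 ∣ ρ) (hev : Even ρ)
    (hn : (ρ + 4) * (2 * ρ - 1) + (ρ + 5) ≤ n) : n ∈ Pool.Agent.TH903.Nut.N ρ := by
  obtain ⟨t, j, ht, rfl⟩ := arith' ρ (by omega) h5 n hn (hev.mul_left n)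
  obtain ⟨c, hc⟩ := hev
  exact orders hρ (by omega) (by omega) ht j

end Pool.Agent.TH991.Nut
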