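import Mathlib

set_option autoImplicit false
open Finset

namespace Pool.Agent.TH991.Nut

/-- A window: a graph `T` on `k` special vertices, and the special vertices attached to the first,
second, last but one and last vertex of a band. -/
structure Win (k : ℕ) where
  T : Fin k → Finset (Fin k)
  A0 : Finset (Fin k)
  A1 : Finset (Fin k)
  A2 : Finset (Fin k)
  A3 : Finset (Fin k)

variable {k : ℕ}

def adjH (m : ℕ) (D : Win k) : Fin m ⊕ Fin k → Fin m ⊕ Fin k → Prop
  | .inl i, .inl j => (j : ℕ) = i + 1 ∨ (j : ℕ) = i + 2 ∨ (i : ℕ) = j + 1 ∨ (i : ℕ) = j + 2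
  | .inl i, .inr s => ((i : ℕ) = 0 ∧ s ∈ D.A0) ∨ ((i : ℕ) = 1 ∧ s ∈ D.A1) ∨
      ((i : ℕ) + 2 = m ∧ s ∈ D.A2) ∨ ((i : ℕ) + 1 = m ∧ s ∈ D.A3)
  | .inr s, .inl i => ((i : ℕ) = 0 ∧ s ∈ D.A0) ∨ ((i : ℕ) = 1 ∧ s ∈ D.A1) ∨
      ((i : ℕ) + 2 = m ∧ s ∈ D.A2) ∨ ((i : ℕ) + 1 = m ∧ s ∈ D.A3)
  | .inr s, .inr s' => s' ∈ D.T s

instance (m : ℕ) (D : Win k) : DecidableRel (adjH m D) := fun a b => by
  cases a <;> cases b <;> (simp only [adjH]; infer_instance)

/-- extension by zero of a function on the band. -/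
noncomputable def Yx {m : ℕ} (y : Fin m → ℝ) (c : ℕ) : ℝ := if h : c < m then y ⟨c, h⟩ else 0

theorem Yx_of_lt {m : ℕ} (y : Fin m → ℝ) {c : ℕ} (h : c < m) : Yx y c = y ⟨c, h⟩ := by
  simp [Yx, h]

theorem sum_eq {m : ℕ} (y : Fin m → ℝ) (c : ℕ) :
    ∑ j : Fin m, (if (j : ℕ) = c then y j else 0) = Yx y c := by
  by_cases h : c < m
  · rw [Yx_of_lt y h, Finset.sum_eq_single (⟨c, h⟩ : Fin m)]
    · simp
    · intro b _ hb
      rw [if_neg]
      intro hc
      exact hb (Fin.ext hc)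
    · intro h'; exact absurd (Finset.mem_univ _) h'
  · rw [Yx, dif_neg h]
    refine Finset.sum_eq_zero fun j _ => if_neg ?_
    intro hj
    exact h (hj ▸ j.2)

noncomputable def SH (m : ℕ) (D : Win k) (y : Fin m ⊕ Fin k → ℝ) (v : Fin m ⊕ Fin k) : ℝ :=
  ∑ w, if adjH m D v w then y w else 0

theorem SH_int {m : ℕ} (D : Win k) (y : Fin m ⊕ Fin k → ℝ) (j : ℕ) (hj : j + 4 < m) (i : Fin m)
    (hi : (i : ℕ) = j + 2) :
    SH m D y (.inl i) = Yx (fun i => y (.inl i)) j + Yx (fun i => y (.inl i)) (j + 1) +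
      Yx (fun i => y (.inl i)) (j + 3) + Yx (fun i => y (.inl i)) (j + 4) := by
  unfold SH
  rw [Fintype.sum_sum_type, ← sum_eq, ← sum_eq, ← sum_eq, ← sum_eq, ← Finset.sum_add_distrib,
    ← Finset.sum_add_distrib, ← Finset.sum_add_distrib]
  have h2 : ∑ s : Fin k, (if adjH m D (.inl i) (.inr s) then y (.inr s) else 0) = 0 := by
    refine Finset.sum_eq_zero fun s _ => if_neg ?_
    simp only [adjH]
    omega
  rw [h2, add_zero]
  refine Finset.sum_congr rfl fun a _ => ?_
  simp only [adjH]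
  split_ifs <;> first | omega | simp

theorem SH_0 {m : ℕ} (hm : 5 ≤ m) (D : Win k) (y : Fin m ⊕ Fin k → ℝ) (i : Fin m)
    (hi : (i : ℕ) = 0) :
    SH m D y (.inl i) = Yx (fun i => y (.inl i)) 1 + Yx (fun i => y (.inl i)) 2 +
      ∑ s ∈ D.A0, y (.inr s) := by
  unfold SH
  rw [Fintype.sum_sum_type, ← sum_eq, ← sum_eq, ← Finset.sum_add_distrib]
  have h2 : ∑ s : Fin k, (if adjH m D (.inl i) (.inr s) then y (.inr s) else 0) =
      ∑ s ∈ D.A0, y (.inr s) := by
    rw [← Finset.sum_filter]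
    refine Finset.sum_congr ?_ fun _ _ => rfl
    ext s
    simp only [adjH, mem_filter, mem_univ, true_and]
    constructor
    · rintro (h | h | h | h)
      · exact h.2
      · omega
      · omega
      · omega
    · intro h; exact Or.inl ⟨hi, h⟩
  rw [h2]
  congr 1
  refine Finset.sum_congr rfl fun a _ => ?_
  simp only [adjH]
  split_ifs <;> first | omega | simp

theorem SH_1 {m : ℕ} (hm : 5 ≤ m) (D : Win k) (y : Fin m ⊕ Fin k → ℝ) (i : Fin m)
    (hi : (i : ℕ) = 1) :
    SH m D y (.inl i) = Yx (fun i => y (.inl i)) 0 + Yx (fun i => y (.inl i)) 2 +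
      Yx (fun i => y (.inl i)) 3 + ∑ s ∈ D.A1, y (.inr s) := by
  unfold SH
  rw [Fintype.sum_sum_type, ← sum_eq, ← sum_eq, ← sum_eq, ← Finset.sum_add_distrib,
    ← Finset.sum_add_distrib]
  have h2 : ∑ s : Fin k, (if adjH m D (.inl i) (.inr s) then y (.inr s) else 0) =
      ∑ s ∈ D.A1, y (.inr s) := by
    rw [← Finset.sum_filter]
    refine Finset.sum_congr ?_ fun _ _ => rfl
    ext s
    simp only [adjH, mem_filter, mem_univ, true_and]
    constructor
    · rintro (h | h | h | h)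
      · omega
      · exact h.2
      · omega
      · omega
    · intro h; exact Or.inr (Or.inl ⟨hi, h⟩)
  rw [h2]
  congr 1
  refine Finset.sum_congr rfl fun a _ => ?_
  simp only [adjH]
  split_ifs <;> first | omega | simp

theorem SH_2 {m : ℕ} (hm : 5 ≤ m) (D : Win k) (y : Fin m ⊕ Fin k → ℝ) (i : Fin m)
    (hi : (i : ℕ) + 2 = m) :
    SH m D y (.inl i) = Yx (fun i => y (.inl i)) (m - 4) + Yx (fun i => y (.inl i)) (m - 3) +
      Yx (fun i => y (.inl i)) (m - 1) + ∑ s ∈ D.A2, y (.inr s) := by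
  unfold SH
  rw [Fintype.sum_sum_type, ← sum_eq, ← sum_eq, ← sum_eq, ← Finset.sum_add_distrib,
    ← Finset.sum_add_distrib]
  have h2 : ∑ s : Fin k, (if adjH m D (.inl i) (.inr s) then y (.inr s) else 0) =
      ∑ s ∈ D.A2, y (.inr s) := by
    rw [← Finset.sum_filter]
    refine Finset.sum_congr ?_ fun _ _ => rfl
    ext s
    simp only [adjH, mem_filter, mem_univ, true_and]
    constructor
    · rintro (h | h | h | h)
      · omega
      · omega
      · exact h.2
      · omega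
    · intro h; exact Or.inr (Or.inr (Or.inl ⟨hi, h⟩))
  rw [h2]
  congr 1
  refine Finset.sum_congr rfl fun a _ => ?_
  have ha := a.2
  simp only [adjH]
  split_ifs <;> first | omega | simp

theorem SH_3 {m : ℕ} (hm : 5 ≤ m) (D : Win k) (y : Fin m ⊕ Fin k → ℝ) (i : Fin m)
    (hi : (i : ℕ) + 1 = m) :
    SH m D y (.inl i) = Yx (fun i => y (.inl i)) (m - 3) + Yx (fun i => y (.inl i)) (m - 2) +
      ∑ s ∈ D.A3, y (.inr s) := by
  unfold SH
  rw [Fintype.sum_sum_type, ← sum_eq, ← sum_eq, ← Finset.sum_add_distrib]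
  have h2 : ∑ s : Fin k, (if adjH m D (.inl i) (.inr s) then y (.inr s) else 0) =
      ∑ s ∈ D.A3, y (.inr s) := by
    rw [← Finset.sum_filter]
    refine Finset.sum_congr ?_ fun _ _ => rfl
    ext s
    simp only [adjH, mem_filter, mem_univ, true_and]
    constructor
    · rintro (h | h | h | h)
      · omega
      · omega
      · omega
      · exact h.2
    · intro h; exact Or.inr (Or.inr (Or.inr ⟨hi, h⟩))
  rw [h2]
  congr 1
  refine Finset.sum_congr rfl fun a _ => ?_
  have ha := a.2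
  simp only [adjH]
  split_ifs <;> first | omega | simp

theorem SH_s {m : ℕ} (hm : 5 ≤ m) (D : Win k) (y : Fin m ⊕ Fin k → ℝ) (s : Fin k) :
    SH m D y (.inr s) = ∑ t ∈ D.T s, y (.inr t) +
      ((if s ∈ D.A0 then Yx (fun i => y (.inl i)) 0 else 0) +
      (if s ∈ D.A1 then Yx (fun i => y (.inl i)) 1 else 0) +
      (if s ∈ D.A2 then Yx (fun i => y (.inl i)) (m - 2) else 0) +
      (if s ∈ D.A3 then Yx (fun i => y (.inl i)) (m - 1) else 0)) := by
  unfold SH
  rw [Fintype.sum_sum_type, add_comm]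
  congr 1
  · rw [← Finset.sum_filter]
    refine Finset.sum_congr ?_ fun _ _ => rfl
    ext t
    simp [adjH]
  · have e : ∀ (p : Prop) [Decidable p] (c : ℕ), (if p then Yx (fun i => y (.inl i)) c else 0) =
        ∑ j : Fin m, (if p ∧ (j : ℕ) = c then y (.inl j) else 0) := by
      intro p _ c
      by_cases hp : p
      · rw [if_pos hp, ← sum_eq]
        refine Finset.sum_congr rfl fun j _ => ?_
        simp [hp]
      · rw [if_neg hp]
        symm
        refine Finset.sum_eq_zero fun j _ => if_neg ?_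
        simp [hp]
    rw [e, e, e, e, ← Finset.sum_add_distrib, ← Finset.sum_add_distrib,
      ← Finset.sum_add_distrib]
    refine Finset.sum_congr rfl fun a _ => ?_
    have ha := a.2
    simp only [adjH]
    by_cases h0 : s ∈ D.A0 <;> by_cases h1 : s ∈ D.A1 <;> by_cases h2 : s ∈ D.A2 <;>
      by_cases h3 : s ∈ D.A3 <;> simp only [h0, h1, h2, h3, true_and, and_true, false_and,
        and_false, or_false, false_or, if_false, add_zero, zero_add] <;>
      split_ifs <;> first | omega | simp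

end Pool.Agent.TH991.Nut
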