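import Pool.Agent.TH991.Nut.Main

set_option autoImplicit false
open Finset

namespace Pool.Agent.TH991.Nut

/-- window 0: order congruent to 0 mod 5 -/
def D0 : Win 5 where
  T := ![{1, 2, 3, 4}, {0, 2, 3}, {0, 1, 4}, {0, 1}, {0, 2}]
  A0 := {3, 4}
  A1 := {2}
  A2 := {3}
  A3 := {1, 4}

theorem reg0 : Reg D0 := by
  refine ⟨by decide, by decide, by decide, by decide, by decide, by decide, by decide⟩

def P0 : ℕ → ℝ := fun i => if i = 0 then 1 else if i = 1 then 1 else if i = 2 then -4 else if i = 3 then 1 else 1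

def c0 : Fin 5 → ℝ := ![-4, 1, 1, 1, 1]

theorem lin0 (y0 y1 y2 y3 y4 z0 z1 z2 z3 z4 : ℝ)
    (h0 : y0 + y1 + y2 + y3 + y4 = 0)
    (h1 : y0 + y1 + y2 + z3 + z4 = 0)
    (h2 : y0 + y1 + y2 + y3 + z2 = 0)
    (h3 : y1 + y2 + y3 + y4 + z3 = 0)
    (h4 : y2 + y3 + y4 + z1 + z4 = 0)
    (h5 : z0 + z1 + z2 + z3 + z4 = 0)
    (h6 : y4 + z0 + z1 + z2 + z3 = 0)
    (h7 : y1 + z0 + z1 + z2 + z4 = 0)
    (h8 : y0 + y3 + z0 + z1 + z3 = 0)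
    (h9 : y0 + y4 + z0 + z2 + z4 = 0)
    : y0 = y0 / 1 * (1) ∧
      y1 = y0 / 1 * (1) ∧
      y2 = y0 / 1 * (-4) ∧
      y3 = y0 / 1 * (1) ∧
      y4 = y0 / 1 * (1) ∧
      z0 = y0 / 1 * (-4) ∧
      z1 = y0 / 1 * (1) ∧
      z2 = y0 / 1 * (1) ∧
      z3 = y0 / 1 * (1) ∧
      z4 = y0 / 1 * (1) := by
  refine ⟨?_, ?_, ?_, ?_, ?_, ?_, ?_, ?_, ?_, ?_⟩
  · linear_combination 0 * h0
  · linear_combination (-1 : ℝ) * h0 + (1 : ℝ) * h3 + (-1 : ℝ) * h5 + (1 : ℝ) * h7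
  · linear_combination (3/2 : ℝ) * h0 + (3/2 : ℝ) * h1 + (1/2 : ℝ) * h2 + (-5/2 : ℝ) * h3 + (-1/2 : ℝ) * h5 + (1 : ℝ) * h6 + (-1 : ℝ) * h7 + (1/2 : ℝ) * h8
  · linear_combination (-1 : ℝ) * h1 + (1 : ℝ) * h3 + (1 : ℝ) * h5 + (-1 : ℝ) * h6
  · linear_combination (1/2 : ℝ) * h0 + (-1/2 : ℝ) * h1 + (-1/2 : ℝ) * h2 + (1/2 : ℝ) * h3 + (1/2 : ℝ) * h5 + (-1/2 : ℝ) * h8
  · linear_combination (7/2 : ℝ) * h0 + (1/2 : ℝ) * h1 + (-1/2 : ℝ) * h2 + (-5/2 : ℝ) * h3 + (-1 : ℝ) * h4 + (3/2 : ℝ) * h5 + (-1 : ℝ) * h7 + (1/2 : ℝ) * h8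
  · linear_combination (-5/2 : ℝ) * h0 + (1/2 : ℝ) * h1 + (1/2 : ℝ) * h2 + (1/2 : ℝ) * h3 + (1 : ℝ) * h4 + (-5/2 : ℝ) * h5 + (1 : ℝ) * h6 + (1 : ℝ) * h7 + (1/2 : ℝ) * h8
  · linear_combination (-1/2 : ℝ) * h0 + (-1/2 : ℝ) * h1 + (1/2 : ℝ) * h2 + (1/2 : ℝ) * h3 + (1/2 : ℝ) * h5 + (-1/2 : ℝ) * h8
  · linear_combination (-1 : ℝ) * h0 + (1 : ℝ) * h3
  · linear_combination (1/2 : ℝ) * h0 + (-1/2 : ℝ) * h1 + (-1/2 : ℝ) * h2 + (1/2 : ℝ) * h3 + (3/2 : ℝ) * h5 + (-1 : ℝ) * h6 + (-1/2 : ℝ) * h8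



theorem sol0 : Sys D0 0 P0 c0 := by
  refine ⟨?_, ?_, ?_, ?_, ?_, ?_⟩
  · simp [D0, P0, c0] <;> norm_num
  · simp [D0, P0, c0] <;> norm_num
  · simp [D0, P0, c0] <;> norm_num
  · simp [D0, P0, c0] <;> norm_num
  · simp [D0, P0, c0] <;> norm_num
  · intro s
    fin_cases s <;> simp [D0, P0, c0] <;> norm_num

theorem cert0 (Y : ℕ → ℝ) (z : Fin 5 → ℝ) (h : Sys D0 0 Y z) :
    ∃ t : ℝ, (∀ i, i < 5 → Y i = t * P0 i) ∧ ∀ s, z s = t * c0 s := by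
  obtain ⟨h0, h1, h2, h3, h4, h5⟩ := h
  have g0 := h5 0
  have g1 := h5 1
  have g2 := h5 2
  have g3 := h5 3
  have g4 := h5 4
  clear h5
  simp [D0] at h1 h2 h3 h4
  simp [D0] at g0
  simp [D0] at g1
  simp [D0] at g2
  simp [D0] at g3
  simp [D0] at g4
  have key := lin0 (Y 0) (Y 1) (Y 2) (Y 3) (Y 4) (z 0) (z 1) (z 2) (z 3) (z 4)
    (by linarith) (by linarith) (by linarith) (by linarith) (by linarith) (by linarith) (by linarith) (by linarith) (by linarith) (by linarith)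
  obtain ⟨e0, e1, e2, e3, e4, e5, e6, e7, e8, e9⟩ := key
  refine ⟨Y 0 / 1, ?_, ?_⟩
  · intro i hi
    interval_cases i
    · rw [show P0 0 = (1 : ℝ) by simp [P0]]; exact e0
    · rw [show P0 1 = (1 : ℝ) by simp [P0]]; exact e1
    · rw [show P0 2 = (-4 : ℝ) by simp [P0]]; exact e2
    · rw [show P0 3 = (1 : ℝ) by simp [P0]]; exact e3
    · rw [show P0 4 = (1 : ℝ) by simp [P0]]; exact e4
  · intro s
    fin_cases s
    · show z 0 = Y 0 / 1 * c0 0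
      rw [show c0 0 = (-4 : ℝ) by simp [c0]]; exact e5
    · show z 1 = Y 0 / 1 * c0 1
      rw [show c0 1 = (1 : ℝ) by simp [c0]]; exact e6
    · show z 2 = Y 0 / 1 * c0 2
      rw [show c0 2 = (1 : ℝ) by simp [c0]]; exact e7
    · show z 3 = Y 0 / 1 * c0 3
      rw [show c0 3 = (1 : ℝ) by simp [c0]]; exact e8
    · show z 4 = Y 0 / 1 * c0 4
      rw [show c0 4 = (1 : ℝ) by simp [c0]]; exact e9

theorem fam0 {n : ℕ} (hn : 10 ≤ n) (h5 : n % 5 = 0) : n ∈ N (n - 5) := by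
  refine mem_N (m := n - 5) (r := 0) (k := 5) (by omega) (by omega) (by norm_num) (by omega)
    D0 reg0 P0 c0 ?_ ?_ sol0 cert0
  · intro i hi
    interval_cases i <;> simp [P0]
  · intro s
    fin_cases s <;> simp [c0]

end Pool.Agent.TH991.Nut
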