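import Pool.Agent.TH991.Nut.Main

set_option autoImplicit false
open Finset

namespace Pool.Agent.TH991.Nut

/-- window 1: order congruent to 1 mod 5 -/
def D1 : Win 11 where
  T := ![{1, 4, 6, 9}, {0, 7, 9, 10}, {6, 7, 10}, {5, 6, 10}, {0, 7}, {3, 8, 9}, {0, 2, 3, 8}, {1, 2, 4, 8}, {5, 6, 7, 10}, {0, 1, 5}, {1, 2, 3, 8}]
  A0 := {9, 5}
  A1 := {4}
  A2 := {2}
  A3 := {4, 3}

theorem reg1 : Reg D1 := by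
  refine ⟨by decide, by decide, by decide, by decide, by decide, by decide, by decide⟩

def P1 : ℕ → ℝ := fun i => if i = 0 then 2 else if i = 1 then -3 else if i = 2 then 1 else if i = 3 then -2 else 2

def c1 : Fin 11 → ℝ := ![1, -3, 2, -3, 2, -1, -1, -2, 1, 1, 3]

theorem lin1 (y0 y1 y2 y3 y4 z0 z1 z2 z3 z4 z5 z6 z7 z8 z9 z10 : ℝ)
    (h0 : y0 + y1 + y2 + y3 + y4 = 0)
    (h1 : y0 + y1 + y2 + z5 + z9 = 0)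
    (h2 : y0 + y1 + y2 + y3 + z4 = 0)
    (h3 : y1 + y2 + y3 + y4 + z2 = 0)
    (h4 : y2 + y3 + y4 + z3 + z4 = 0)
    (h5 : z0 + z1 + z4 + z6 + z9 = 0)
    (h6 : z0 + z1 + z7 + z9 + z10 = 0)
    (h7 : y3 + z2 + z6 + z7 + z10 = 0)
    (h8 : y4 + z3 + z5 + z6 + z10 = 0)
    (h9 : y1 + y4 + z0 + z4 + z7 = 0)
    (h10 : y0 + z3 + z5 + z8 + z9 = 0)
    (h11 : z0 + z2 + z3 + z6 + z8 = 0)
    (h12 : z1 + z2 + z4 + z7 + z8 = 0)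
    (h13 : z5 + z6 + z7 + z8 + z10 = 0)
    (h14 : y0 + z0 + z1 + z5 + z9 = 0)
    (h15 : z1 + z2 + z3 + z8 + z10 = 0)
    : y0 = y0 / 2 * (2) ∧
      y1 = y0 / 2 * (-3) ∧
      y2 = y0 / 2 * (1) ∧
      y3 = y0 / 2 * (-2) ∧
      y4 = y0 / 2 * (2) ∧
      z0 = y0 / 2 * (1) ∧
      z1 = y0 / 2 * (-3) ∧
      z2 = y0 / 2 * (2) ∧
      z3 = y0 / 2 * (-3) ∧
      z4 = y0 / 2 * (2) ∧
      z5 = y0 / 2 * (-1) ∧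
      z6 = y0 / 2 * (-1) ∧
      z7 = y0 / 2 * (-2) ∧
      z8 = y0 / 2 * (1) ∧
      z9 = y0 / 2 * (1) ∧
      z10 = y0 / 2 * (3) := by
  refine ⟨?_, ?_, ?_, ?_, ?_, ?_, ?_, ?_, ?_, ?_, ?_, ?_, ?_, ?_, ?_, ?_⟩
  · linear_combination 0 * h0
  · linear_combination (5/6 : ℝ) * h0 + (1/6 : ℝ) * h1 + (1/2 : ℝ) * h2 + (-2/3 : ℝ) * h3 + (-5/6 : ℝ) * h4 + (-1/6 : ℝ) * h5 + (1/6 : ℝ) * h7 + (1/2 : ℝ) * h8 + (1/6 : ℝ) * h9 + (1/6 : ℝ) * h10 + (1/6 : ℝ) * h11 + (1/3 : ℝ) * h12 + (-2/3 : ℝ) * h13 + (-1/6 : ℝ) * h14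
  · linear_combination (-1/10 : ℝ) * h0 + (7/10 : ℝ) * h1 + (-3/10 : ℝ) * h2 + (7/10 : ℝ) * h4 + (-1/10 : ℝ) * h5 + (1/5 : ℝ) * h6 + (-3/10 : ℝ) * h7 + (-3/10 : ℝ) * h8 + (-3/10 : ℝ) * h9 + (-7/10 : ℝ) * h10 + (3/10 : ℝ) * h11 + (2/5 : ℝ) * h13 + (-1/10 : ℝ) * h14
  · linear_combination (13/30 : ℝ) * h0 + (-8/15 : ℝ) * h1 + (3/10 : ℝ) * h2 + (-1/6 : ℝ) * h3 + (-1/30 : ℝ) * h4 + (-1/15 : ℝ) * h5 + (-1/5 : ℝ) * h6 + (7/15 : ℝ) * h7 + (-1/5 : ℝ) * h8 + (-1/30 : ℝ) * h9 + (11/30 : ℝ) * h10 + (-2/15 : ℝ) * h11 + (-1/6 : ℝ) * h12 + (-1/15 : ℝ) * h13 + (13/30 : ℝ) * h14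
  · linear_combination (-1/6 : ℝ) * h0 + (-1/3 : ℝ) * h1 + (-1/2 : ℝ) * h2 + (5/6 : ℝ) * h3 + (1/6 : ℝ) * h4 + (1/3 : ℝ) * h5 + (-1/3 : ℝ) * h7 + (1/6 : ℝ) * h9 + (1/6 : ℝ) * h10 + (-1/3 : ℝ) * h11 + (-1/6 : ℝ) * h12 + (1/3 : ℝ) * h13 + (-1/6 : ℝ) * h14
  · linear_combination (-3/5 : ℝ) * h0 + (-3/10 : ℝ) * h1 + (1/5 : ℝ) * h2 + (1/2 : ℝ) * h3 + (1/5 : ℝ) * h4 + (-1/10 : ℝ) * h5 + (1/5 : ℝ) * h6 + (-3/10 : ℝ) * h7 + (-3/10 : ℝ) * h8 + (1/5 : ℝ) * h9 + (-1/5 : ℝ) * h10 + (3/10 : ℝ) * h11 + (-1/2 : ℝ) * h12 + (2/5 : ℝ) * h13 + (2/5 : ℝ) * h14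
  · linear_combination (4/3 : ℝ) * h0 + (1/6 : ℝ) * h1 + (-7/6 : ℝ) * h3 + (-1/3 : ℝ) * h4 + (-1/6 : ℝ) * h5 + (1/6 : ℝ) * h7 + (1/2 : ℝ) * h8 + (-1/3 : ℝ) * h9 + (-1/3 : ℝ) * h10 + (1/6 : ℝ) * h11 + (5/6 : ℝ) * h12 + (-2/3 : ℝ) * h13 + (1/3 : ℝ) * h14
  · linear_combination (-1 : ℝ) * h0 + (1 : ℝ) * h3
  · linear_combination (1 : ℝ) * h0 + (1/2 : ℝ) * h1 + (-3/2 : ℝ) * h3 + (-1/2 : ℝ) * h5 + (1/2 : ℝ) * h7 + (1/2 : ℝ) * h8 + (1/2 : ℝ) * h11 + (1/2 : ℝ) * h12 + (-1 : ℝ) * h13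
  · linear_combination (-7/6 : ℝ) * h0 + (-1/3 : ℝ) * h1 + (1/2 : ℝ) * h2 + (5/6 : ℝ) * h3 + (1/6 : ℝ) * h4 + (1/3 : ℝ) * h5 + (-1/3 : ℝ) * h7 + (1/6 : ℝ) * h9 + (1/6 : ℝ) * h10 + (-1/3 : ℝ) * h11 + (-1/6 : ℝ) * h12 + (1/3 : ℝ) * h13 + (-1/6 : ℝ) * h14
  · linear_combination (-3/10 : ℝ) * h0 + (1/10 : ℝ) * h1 + (1/10 : ℝ) * h2 + (1/10 : ℝ) * h4 + (-3/10 : ℝ) * h5 + (-2/5 : ℝ) * h6 + (1/10 : ℝ) * h7 + (1/10 : ℝ) * h8 + (1/10 : ℝ) * h9 + (-1/10 : ℝ) * h10 + (-1/10 : ℝ) * h11 + (1/5 : ℝ) * h13 + (7/10 : ℝ) * h14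
  · linear_combination (13/15 : ℝ) * h0 + (13/30 : ℝ) * h1 + (-2/5 : ℝ) * h2 + (-5/6 : ℝ) * h3 + (-1/15 : ℝ) * h4 + (11/30 : ℝ) * h5 + (-2/5 : ℝ) * h6 + (13/30 : ℝ) * h7 + (1/10 : ℝ) * h8 + (-1/15 : ℝ) * h9 + (-4/15 : ℝ) * h10 + (7/30 : ℝ) * h11 + (1/6 : ℝ) * h12 + (-2/15 : ℝ) * h13 + (-2/15 : ℝ) * h14
  · linear_combination (11/10 : ℝ) * h0 + (4/5 : ℝ) * h1 + (-7/10 : ℝ) * h2 + (-3/2 : ℝ) * h3 + (3/10 : ℝ) * h4 + (-2/5 : ℝ) * h5 + (-1/5 : ℝ) * h6 + (4/5 : ℝ) * h7 + (-1/5 : ℝ) * h8 + (3/10 : ℝ) * h9 + (-3/10 : ℝ) * h10 + (1/5 : ℝ) * h11 + (1/2 : ℝ) * h12 + (-2/5 : ℝ) * h13 + (1/10 : ℝ) * h14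
  · linear_combination (-4/15 : ℝ) * h0 + (-19/30 : ℝ) * h1 + (1/5 : ℝ) * h2 + (5/6 : ℝ) * h3 + (-2/15 : ℝ) * h4 + (7/30 : ℝ) * h5 + (1/5 : ℝ) * h6 + (-19/30 : ℝ) * h7 + (-3/10 : ℝ) * h8 + (-2/15 : ℝ) * h9 + (7/15 : ℝ) * h10 + (-1/30 : ℝ) * h11 + (-1/6 : ℝ) * h12 + (11/15 : ℝ) * h13 + (-4/15 : ℝ) * h14
  · linear_combination (-13/30 : ℝ) * h0 + (1/30 : ℝ) * h1 + (-3/10 : ℝ) * h2 + (2/3 : ℝ) * h3 + (1/30 : ℝ) * h4 + (17/30 : ℝ) * h5 + (1/5 : ℝ) * h6 + (1/30 : ℝ) * h7 + (-3/10 : ℝ) * h8 + (1/30 : ℝ) * h9 + (19/30 : ℝ) * h10 + (-11/30 : ℝ) * h11 + (-1/3 : ℝ) * h12 + (1/15 : ℝ) * h13 + (-13/30 : ℝ) * h14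
  · linear_combination (-7/5 : ℝ) * h0 + (-7/10 : ℝ) * h1 + (4/5 : ℝ) * h2 + (3/2 : ℝ) * h3 + (-1/5 : ℝ) * h4 + (1/10 : ℝ) * h5 + (4/5 : ℝ) * h6 + (-7/10 : ℝ) * h7 + (3/10 : ℝ) * h8 + (-1/5 : ℝ) * h9 + (1/5 : ℝ) * h10 + (-3/10 : ℝ) * h11 + (-1/2 : ℝ) * h12 + (3/5 : ℝ) * h13 + (-2/5 : ℝ) * h14



theorem sol1 : Sys D1 0 P1 c1 := by
  refine ⟨?_, ?_, ?_, ?_, ?_, ?_⟩
  · simp [D1, P1, c1] <;> norm_num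
  · simp [D1, P1, c1] <;> norm_num
  · simp [D1, P1, c1] <;> norm_num
  · simp [D1, P1, c1] <;> norm_num
  · simp [D1, P1, c1] <;> norm_num
  · intro s
    fin_cases s <;> simp [D1, P1, c1] <;> norm_num

theorem cert1 (Y : ℕ → ℝ) (z : Fin 11 → ℝ) (h : Sys D1 0 Y z) :
    ∃ t : ℝ, (∀ i, i < 5 → Y i = t * P1 i) ∧ ∀ s, z s = t * c1 s := by
  obtain ⟨h0, h1, h2, h3, h4, h5⟩ := h
  have g0 := h5 0
  have g1 := h5 1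
  have g2 := h5 2
  have g3 := h5 3
  have g4 := h5 4
  have g5 := h5 5
  have g6 := h5 6
  have g7 := h5 7
  have g8 := h5 8
  have g9 := h5 9
  have g10 := h5 10
  clear h5
  simp [D1] at h1 h2 h3 h4
  simp [D1] at g0
  simp [D1] at g1
  simp [D1] at g2
  simp [D1] at g3
  simp [D1] at g4
  simp [D1] at g5
  simp [D1] at g6
  simp [D1] at g7
  simp [D1] at g8
  simp [D1] at g9
  simp [D1] at g10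
  have key := lin1 (Y 0) (Y 1) (Y 2) (Y 3) (Y 4) (z 0) (z 1) (z 2) (z 3) (z 4) (z 5) (z 6) (z 7) (z 8) (z 9) (z 10)
    (by linarith) (by linarith) (by linarith) (by linarith) (by linarith) (by linarith) (by linarith) (by linarith) (by linarith) (by linarith) (by linarith) (by linarith) (by linarith) (by linarith) (by linarith) (by linarith)
  obtain ⟨e0, e1, e2, e3, e4, e5, e6, e7, e8, e9, e10, e11, e12, e13, e14, e15⟩ := key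
  refine ⟨Y 0 / 2, ?_, ?_⟩
  · intro i hi
    interval_cases i
    · rw [show P1 0 = (2 : ℝ) by simp [P1]]; exact e0
    · rw [show P1 1 = (-3 : ℝ) by simp [P1]]; exact e1
    · rw [show P1 2 = (1 : ℝ) by simp [P1]]; exact e2
    · rw [show P1 3 = (-2 : ℝ) by simp [P1]]; exact e3
    · rw [show P1 4 = (2 : ℝ) by simp [P1]]; exact e4
  · intro s
    fin_cases s
    · show z 0 = Y 0 / 2 * c1 0
      rw [show c1 0 = (1 : ℝ) by simp [c1]]; exact e5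
    · show z 1 = Y 0 / 2 * c1 1
      rw [show c1 1 = (-3 : ℝ) by simp [c1]]; exact e6
    · show z 2 = Y 0 / 2 * c1 2
      rw [show c1 2 = (2 : ℝ) by simp [c1]]; exact e7
    · show z 3 = Y 0 / 2 * c1 3
      rw [show c1 3 = (-3 : ℝ) by simp [c1]]; exact e8
    · show z 4 = Y 0 / 2 * c1 4
      rw [show c1 4 = (2 : ℝ) by simp [c1]]; exact e9
    · show z 5 = Y 0 / 2 * c1 5
      rw [show c1 5 = (-1 : ℝ) by simp [c1]]; exact e10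
    · show z 6 = Y 0 / 2 * c1 6
      rw [show c1 6 = (-1 : ℝ) by simp [c1]]; exact e11
    · show z 7 = Y 0 / 2 * c1 7
      rw [show c1 7 = (-2 : ℝ) by simp [c1]]; exact e12
    · show z 8 = Y 0 / 2 * c1 8
      rw [show c1 8 = (1 : ℝ) by simp [c1]]; exact e13
    · show z 9 = Y 0 / 2 * c1 9
      rw [show c1 9 = (1 : ℝ) by simp [c1]]; exact e14
    · show z 10 = Y 0 / 2 * c1 10
      rw [show c1 10 = (3 : ℝ) by simp [c1]]; exact e15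

theorem fam1 {n : ℕ} (hn : 16 ≤ n) (h5 : n % 5 = 1) : n ∈ N (n - 5) := by
  refine mem_N (m := n - 11) (r := 0) (k := 11) (by omega) (by omega) (by norm_num) (by omega)
    D1 reg1 P1 c1 ?_ ?_ sol1 cert1
  · intro i hi
    interval_cases i <;> simp [P1]
  · intro s
    fin_cases s <;> simp [c1]

end Pool.Agent.TH991.Nut
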