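import Pool.Agent.TH991.Nut.Main

set_option autoImplicit false
open Finset

namespace Pool.Agent.TH991.Nut

/-- window 2: order congruent to 2 mod 5 -/
def D2 : Win 9 where
  T := ![{3, 4, 6}, {2, 7, 8}, {1, 4, 5, 6}, {0, 5, 6}, {0, 2, 7, 8}, {2, 3, 7, 8}, {0, 2, 3}, {1, 4, 5}, {1, 4, 5}]
  A0 := {1, 3}
  A1 := {6}
  A2 := {7}
  A3 := {0, 8}

theorem reg2 : Reg D2 := by
  refine ⟨by decide, by decide, by decide, by decide, by decide, by decide, by decide⟩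

def P2 : ℕ → ℝ := fun i => if i = 0 then 1 else if i = 1 then 1 else if i = 2 then -2 else if i = 3 then -1 else 1

def c2 : Fin 9 → ℝ := ![-2, -1, -1, 1, 2, -1, 1, -1, 2]

theorem lin2 (y0 y1 y2 y3 y4 z0 z1 z2 z3 z4 z5 z6 z7 z8 : ℝ)
    (h0 : y0 + y1 + y2 + y3 + y4 = 0)
    (h1 : y0 + y1 + y2 + z1 + z3 = 0)
    (h2 : y0 + y1 + y2 + y3 + z6 = 0)
    (h3 : y0 + y1 + y2 + y4 + z7 = 0)
    (h4 : y0 + y1 + y2 + z0 + z8 = 0)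
    (h5 : y2 + z0 + z3 + z4 + z6 = 0)
    (h6 : y0 + z1 + z2 + z7 + z8 = 0)
    (h7 : z1 + z2 + z4 + z5 + z6 = 0)
    (h8 : y0 + z0 + z3 + z5 + z6 = 0)
    (h9 : z0 + z2 + z4 + z7 + z8 = 0)
    (h10 : z2 + z3 + z5 + z7 + z8 = 0)
    (h11 : y1 + z0 + z2 + z3 + z6 = 0)
    (h12 : y1 + z1 + z4 + z5 + z7 = 0)
    (h13 : y2 + z1 + z4 + z5 + z8 = 0)
    : y0 = y0 / 1 * (1) ∧
      y1 = y0 / 1 * (1) ∧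
      y2 = y0 / 1 * (-2) ∧
      y3 = y0 / 1 * (-1) ∧
      y4 = y0 / 1 * (1) ∧
      z0 = y0 / 1 * (-2) ∧
      z1 = y0 / 1 * (-1) ∧
      z2 = y0 / 1 * (-1) ∧
      z3 = y0 / 1 * (1) ∧
      z4 = y0 / 1 * (2) ∧
      z5 = y0 / 1 * (-1) ∧
      z6 = y0 / 1 * (1) ∧
      z7 = y0 / 1 * (-1) ∧
      z8 = y0 / 1 * (2) := by
  refine ⟨?_, ?_, ?_, ?_, ?_, ?_, ?_, ?_, ?_, ?_, ?_, ?_, ?_, ?_⟩
  · linear_combination 0 * h0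
  · linear_combination (1/4 : ℝ) * h0 + (-3/4 : ℝ) * h1 + (-1/4 : ℝ) * h2 + (-1/4 : ℝ) * h3 + (1/2 : ℝ) * h4 + (1/2 : ℝ) * h5 + (1/4 : ℝ) * h6 + (-1/4 : ℝ) * h7 + (-3/4 : ℝ) * h8 + (-1 : ℝ) * h9 + (1/4 : ℝ) * h10 + (3/4 : ℝ) * h11 + (3/4 : ℝ) * h12
  · linear_combination (-9/10 : ℝ) * h0 + (19/10 : ℝ) * h1 + (9/10 : ℝ) * h2 + (9/10 : ℝ) * h3 + (-2/5 : ℝ) * h4 + (-7/5 : ℝ) * h5 + (-13/10 : ℝ) * h6 + (7/10 : ℝ) * h7 + (9/10 : ℝ) * h8 + (2 : ℝ) * h9 + (-3/10 : ℝ) * h10 + (-11/10 : ℝ) * h11 + (-13/10 : ℝ) * h12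
  · linear_combination (2/5 : ℝ) * h0 + (3/5 : ℝ) * h1 + (3/5 : ℝ) * h2 + (-2/5 : ℝ) * h3 + (-3/5 : ℝ) * h4 + (-3/5 : ℝ) * h5 + (-1/5 : ℝ) * h6 + (-1/5 : ℝ) * h7 + (3/5 : ℝ) * h8 + (1 : ℝ) * h9 + (-1/5 : ℝ) * h10 + (-2/5 : ℝ) * h11 + (-1/5 : ℝ) * h12
  · linear_combination (5/4 : ℝ) * h0 + (-7/4 : ℝ) * h1 + (-5/4 : ℝ) * h2 + (-1/4 : ℝ) * h3 + (1/2 : ℝ) * h4 + (3/2 : ℝ) * h5 + (5/4 : ℝ) * h6 + (-1/4 : ℝ) * h7 + (-3/4 : ℝ) * h8 + (-2 : ℝ) * h9 + (1/4 : ℝ) * h10 + (3/4 : ℝ) * h11 + (3/4 : ℝ) * h12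
  · linear_combination (-2/5 : ℝ) * h0 + (7/5 : ℝ) * h1 + (2/5 : ℝ) * h2 + (2/5 : ℝ) * h3 + (-2/5 : ℝ) * h4 + (-7/5 : ℝ) * h5 + (-4/5 : ℝ) * h6 + (1/5 : ℝ) * h7 + (7/5 : ℝ) * h8 + (2 : ℝ) * h9 + (-4/5 : ℝ) * h10 + (-3/5 : ℝ) * h11 + (-4/5 : ℝ) * h12
  · linear_combination (3/20 : ℝ) * h0 + (7/20 : ℝ) * h1 + (-3/20 : ℝ) * h2 + (-3/20 : ℝ) * h3 + (-1/10 : ℝ) * h4 + (-1/10 : ℝ) * h5 + (11/20 : ℝ) * h6 + (1/20 : ℝ) * h7 + (7/20 : ℝ) * h8 + (-9/20 : ℝ) * h10 + (-3/20 : ℝ) * h11 + (1/20 : ℝ) * h12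
  · linear_combination (-3/5 : ℝ) * h0 + (8/5 : ℝ) * h1 + (3/5 : ℝ) * h2 + (3/5 : ℝ) * h3 + (-3/5 : ℝ) * h4 + (-8/5 : ℝ) * h5 + (-6/5 : ℝ) * h6 + (4/5 : ℝ) * h7 + (3/5 : ℝ) * h8 + (2 : ℝ) * h9 + (-1/5 : ℝ) * h10 + (-2/5 : ℝ) * h11 + (-6/5 : ℝ) * h12
  · linear_combination (1/2 : ℝ) * h0 + (-1/2 : ℝ) * h1 + (-1/2 : ℝ) * h2 + (-1/2 : ℝ) * h3 + (1 : ℝ) * h5 + (1/2 : ℝ) * h6 + (-1/2 : ℝ) * h7 + (-1/2 : ℝ) * h8 + (-1 : ℝ) * h9 + (1/2 : ℝ) * h10 + (1/2 : ℝ) * h11 + (1/2 : ℝ) * h12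
  · linear_combination (11/20 : ℝ) * h0 + (-21/20 : ℝ) * h1 + (-11/20 : ℝ) * h2 + (-11/20 : ℝ) * h3 + (3/10 : ℝ) * h4 + (13/10 : ℝ) * h5 + (7/20 : ℝ) * h6 + (-3/20 : ℝ) * h7 + (-21/20 : ℝ) * h8 + (-1 : ℝ) * h9 + (7/20 : ℝ) * h10 + (9/20 : ℝ) * h11 + (17/20 : ℝ) * h12
  · linear_combination (-7/20 : ℝ) * h0 + (17/20 : ℝ) * h1 + (7/20 : ℝ) * h2 + (7/20 : ℝ) * h3 + (-1/10 : ℝ) * h4 + (-11/10 : ℝ) * h5 + (-19/20 : ℝ) * h6 + (11/20 : ℝ) * h7 + (17/20 : ℝ) * h8 + (1 : ℝ) * h9 + (1/20 : ℝ) * h10 + (-13/20 : ℝ) * h11 + (-9/20 : ℝ) * h12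
  · linear_combination (1/4 : ℝ) * h0 + (-7/4 : ℝ) * h1 + (-1/4 : ℝ) * h2 + (-1/4 : ℝ) * h3 + (1/2 : ℝ) * h4 + (3/2 : ℝ) * h5 + (5/4 : ℝ) * h6 + (-1/4 : ℝ) * h7 + (-3/4 : ℝ) * h8 + (-2 : ℝ) * h9 + (1/4 : ℝ) * h10 + (3/4 : ℝ) * h11 + (3/4 : ℝ) * h12
  · linear_combination (-3/5 : ℝ) * h0 + (3/5 : ℝ) * h1 + (3/5 : ℝ) * h2 + (3/5 : ℝ) * h3 + (-3/5 : ℝ) * h4 + (-3/5 : ℝ) * h5 + (-1/5 : ℝ) * h6 + (-1/5 : ℝ) * h7 + (3/5 : ℝ) * h8 + (1 : ℝ) * h9 + (-1/5 : ℝ) * h10 + (-2/5 : ℝ) * h11 + (-1/5 : ℝ) * h12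
  · linear_combination (21/20 : ℝ) * h0 + (-51/20 : ℝ) * h1 + (-21/20 : ℝ) * h2 + (-21/20 : ℝ) * h3 + (13/10 : ℝ) * h4 + (23/10 : ℝ) * h5 + (37/20 : ℝ) * h6 + (-13/20 : ℝ) * h7 + (-31/20 : ℝ) * h8 + (-3 : ℝ) * h9 + (17/20 : ℝ) * h10 + (19/20 : ℝ) * h11 + (27/20 : ℝ) * h12



theorem sol2 : Sys D2 3 P2 c2 := by
  refine ⟨?_, ?_, ?_, ?_, ?_, ?_⟩
  · simp [D2, P2, c2] <;> norm_num
  · simp [D2, P2, c2] <;> norm_num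
  · simp [D2, P2, c2] <;> norm_num
  · simp [D2, P2, c2] <;> norm_num
  · simp [D2, P2, c2] <;> norm_num
  · intro s
    fin_cases s <;> simp [D2, P2, c2] <;> norm_num

theorem cert2 (Y : ℕ → ℝ) (z : Fin 9 → ℝ) (h : Sys D2 3 Y z) :
    ∃ t : ℝ, (∀ i, i < 5 → Y i = t * P2 i) ∧ ∀ s, z s = t * c2 s := by
  obtain ⟨h0, h1, h2, h3, h4, h5⟩ := h
  have g0 := h5 0
  have g1 := h5 1
  have g2 := h5 2
  have g3 := h5 3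
  have g4 := h5 4
  have g5 := h5 5
  have g6 := h5 6
  have g7 := h5 7
  have g8 := h5 8
  clear h5
  simp [D2] at h1 h2 h3 h4
  simp [D2] at g0
  simp [D2] at g1
  simp [D2] at g2
  simp [D2] at g3
  simp [D2] at g4
  simp [D2] at g5
  simp [D2] at g6
  simp [D2] at g7
  simp [D2] at g8
  have key := lin2 (Y 0) (Y 1) (Y 2) (Y 3) (Y 4) (z 0) (z 1) (z 2) (z 3) (z 4) (z 5) (z 6) (z 7) (z 8)
    (by linarith) (by linarith) (by linarith) (by linarith) (by linarith) (by linarith) (by linarith) (by linarith) (by linarith) (by linarith) (by linarith) (by linarith) (by linarith) (by linarith)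
  obtain ⟨e0, e1, e2, e3, e4, e5, e6, e7, e8, e9, e10, e11, e12, e13⟩ := key
  refine ⟨Y 0 / 1, ?_, ?_⟩
  · intro i hi
    interval_cases i
    · rw [show P2 0 = (1 : ℝ) by simp [P2]]; exact e0
    · rw [show P2 1 = (1 : ℝ) by simp [P2]]; exact e1
    · rw [show P2 2 = (-2 : ℝ) by simp [P2]]; exact e2
    · rw [show P2 3 = (-1 : ℝ) by simp [P2]]; exact e3
    · rw [show P2 4 = (1 : ℝ) by simp [P2]]; exact e4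
  · intro s
    fin_cases s
    · show z 0 = Y 0 / 1 * c2 0
      rw [show c2 0 = (-2 : ℝ) by simp [c2]]; exact e5
    · show z 1 = Y 0 / 1 * c2 1
      rw [show c2 1 = (-1 : ℝ) by simp [c2]]; exact e6
    · show z 2 = Y 0 / 1 * c2 2
      rw [show c2 2 = (-1 : ℝ) by simp [c2]]; exact e7
    · show z 3 = Y 0 / 1 * c2 3
      rw [show c2 3 = (1 : ℝ) by simp [c2]]; exact e8
    · show z 4 = Y 0 / 1 * c2 4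
      rw [show c2 4 = (2 : ℝ) by simp [c2]]; exact e9
    · show z 5 = Y 0 / 1 * c2 5
      rw [show c2 5 = (-1 : ℝ) by simp [c2]]; exact e10
    · show z 6 = Y 0 / 1 * c2 6
      rw [show c2 6 = (1 : ℝ) by simp [c2]]; exact e11
    · show z 7 = Y 0 / 1 * c2 7
      rw [show c2 7 = (-1 : ℝ) by simp [c2]]; exact e12
    · show z 8 = Y 0 / 1 * c2 8
      rw [show c2 8 = (2 : ℝ) by simp [c2]]; exact e13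

theorem fam2 {n : ℕ} (hn : 17 ≤ n) (h5 : n % 5 = 2) : n ∈ N (n - 5) := by
  refine mem_N (m := n - 9) (r := 3) (k := 9) (by omega) (by omega) (by norm_num) (by omega)
    D2 reg2 P2 c2 ?_ ?_ sol2 cert2
  · intro i hi
    interval_cases i <;> simp [P2]
  · intro s
    fin_cases s <;> simp [c2]

end Pool.Agent.TH991.Nut
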