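import Pool.Agent.TH991.Nut.Main

set_option autoImplicit false
open Finset

namespace Pool.Agent.TH991.Nut

/-- window 3: order congruent to 3 mod 5 -/
def D3 : Win 13 where
  T := ![{2, 8}, {2, 4, 8, 10}, {0, 1, 5, 9}, {6, 9, 11, 12}, {1, 5, 11, 12}, {2, 4, 7, 11}, {3, 7, 8, 11}, {5, 6}, {0, 1, 6, 9}, {2, 3, 8, 12}, {1, 12}, {3, 4, 5, 6}, {3, 4, 9, 10}]
  A0 := {0, 7}
  A1 := {10}
  A2 := {0}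
  A3 := {10, 7}

theorem reg3 : Reg D3 := by
  refine ⟨by decide, by decide, by decide, by decide, by decide, by decide, by decide⟩

def P3 : ℕ → ℝ := fun i => if i = 0 then 1 else if i = 1 then -1 else if i = 2 then 1 else if i = 3 then -3 else 2

def c3 : Fin 13 → ℝ := ![1, -2, -1, -1, -1, 1, -2, -2, 2, 1, 2, 3, -1]

theorem lin3 (y0 y1 y2 y3 y4 z0 z1 z2 z3 z4 z5 z6 z7 z8 z9 z10 z11 z12 : ℝ)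
    (h0 : y0 + y1 + y2 + y3 + y4 = 0)
    (h1 : y0 + y1 + y2 + z0 + z7 = 0)
    (h2 : y0 + y1 + y2 + y3 + z10 = 0)
    (h3 : y1 + y2 + y3 + y4 + z0 = 0)
    (h4 : y2 + y3 + y4 + z7 + z10 = 0)
    (h5 : y0 + y3 + z0 + z2 + z8 = 0)
    (h6 : z1 + z2 + z4 + z8 + z10 = 0)
    (h7 : z0 + z1 + z2 + z5 + z9 = 0)
    (h8 : z3 + z6 + z9 + z11 + z12 = 0)
    (h9 : z1 + z4 + z5 + z11 + z12 = 0)
    (h10 : z2 + z4 + z5 + z7 + z11 = 0)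
    (h11 : z3 + z6 + z7 + z8 + z11 = 0)
    (h12 : y0 + y4 + z5 + z6 + z7 = 0)
    (h13 : z0 + z1 + z6 + z8 + z9 = 0)
    (h14 : z2 + z3 + z8 + z9 + z12 = 0)
    (h15 : y1 + y4 + z1 + z10 + z12 = 0)
    (h16 : z3 + z4 + z5 + z6 + z11 = 0)
    (h17 : z3 + z4 + z9 + z10 + z12 = 0)
    : y0 = y0 / 1 * (1) ∧
      y1 = y0 / 1 * (-1) ∧
      y2 = y0 / 1 * (1) ∧
      y3 = y0 / 1 * (-3) ∧
      y4 = y0 / 1 * (2) ∧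
      z0 = y0 / 1 * (1) ∧
      z1 = y0 / 1 * (-2) ∧
      z2 = y0 / 1 * (-1) ∧
      z3 = y0 / 1 * (-1) ∧
      z4 = y0 / 1 * (-1) ∧
      z5 = y0 / 1 * (1) ∧
      z6 = y0 / 1 * (-2) ∧
      z7 = y0 / 1 * (-2) ∧
      z8 = y0 / 1 * (2) ∧
      z9 = y0 / 1 * (1) ∧
      z10 = y0 / 1 * (2) ∧
      z11 = y0 / 1 * (3) ∧
      z12 = y0 / 1 * (-1) := by
  refine ⟨?_, ?_, ?_, ?_, ?_, ?_, ?_, ?_, ?_, ?_, ?_, ?_, ?_, ?_, ?_, ?_, ?_, ?_⟩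
  · linear_combination 0 * h0
  · linear_combination (17/20 : ℝ) * h0 + (7/20 : ℝ) * h1 + (-11/10 : ℝ) * h3 + (-1/10 : ℝ) * h4 + (7/20 : ℝ) * h5 + (-4/5 : ℝ) * h6 + (-1/4 : ℝ) * h7 + (-1/2 : ℝ) * h8 + (-1/2 : ℝ) * h9 + (3/5 : ℝ) * h10 + (-3/10 : ℝ) * h11 + (-11/20 : ℝ) * h12 + (13/20 : ℝ) * h13 + (1/10 : ℝ) * h14 + (9/10 : ℝ) * h15 + (7/10 : ℝ) * h16
  · linear_combination (-3/2 : ℝ) * h0 + (-1/2 : ℝ) * h1 + (1 : ℝ) * h2 + (3 : ℝ) * h3 + (-1 : ℝ) * h4 + (-3/2 : ℝ) * h5 + (2 : ℝ) * h6 + (1/2 : ℝ) * h7 + (1 : ℝ) * h8 + (1 : ℝ) * h9 + (-1 : ℝ) * h10 + (1 : ℝ) * h11 + (3/2 : ℝ) * h12 + (-3/2 : ℝ) * h13 + (-2 : ℝ) * h15 + (-2 : ℝ) * h16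
  · linear_combination (49/20 : ℝ) * h0 + (19/20 : ℝ) * h1 + (-1 : ℝ) * h2 + (-37/10 : ℝ) * h3 + (13/10 : ℝ) * h4 + (39/20 : ℝ) * h5 + (-8/5 : ℝ) * h6 + (-1/4 : ℝ) * h7 + (-1/2 : ℝ) * h8 + (-1/2 : ℝ) * h9 + (1/5 : ℝ) * h10 + (-11/10 : ℝ) * h11 + (-27/20 : ℝ) * h12 + (21/20 : ℝ) * h13 + (-3/10 : ℝ) * h14 + (13/10 : ℝ) * h15 + (19/10 : ℝ) * h16
  · linear_combination (-4/5 : ℝ) * h0 + (-4/5 : ℝ) * h1 + (9/5 : ℝ) * h3 + (-1/5 : ℝ) * h4 + (-4/5 : ℝ) * h5 + (2/5 : ℝ) * h6 + (1/5 : ℝ) * h10 + (2/5 : ℝ) * h11 + (2/5 : ℝ) * h12 + (-1/5 : ℝ) * h13 + (1/5 : ℝ) * h14 + (-1/5 : ℝ) * h15 + (-3/5 : ℝ) * h16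
  · linear_combination (-1 : ℝ) * h0 + (1 : ℝ) * h3
  · linear_combination (19/10 : ℝ) * h0 + (9/10 : ℝ) * h1 + (-1 : ℝ) * h2 + (-12/5 : ℝ) * h3 + (3/5 : ℝ) * h4 + (9/10 : ℝ) * h5 + (-1/5 : ℝ) * h6 + (1/2 : ℝ) * h7 + (-3/5 : ℝ) * h10 + (-1/5 : ℝ) * h11 + (-7/10 : ℝ) * h12 + (1/10 : ℝ) * h13 + (-3/5 : ℝ) * h14 + (3/5 : ℝ) * h15 + (4/5 : ℝ) * h16
  · linear_combination (1/10 : ℝ) * h0 + (1/10 : ℝ) * h1 + (2/5 : ℝ) * h3 + (-3/5 : ℝ) * h4 + (1/10 : ℝ) * h5 + (6/5 : ℝ) * h6 + (1/2 : ℝ) * h7 + (1 : ℝ) * h8 + (-2/5 : ℝ) * h10 + (1/5 : ℝ) * h11 + (7/10 : ℝ) * h12 + (-11/10 : ℝ) * h13 + (-2/5 : ℝ) * h14 + (-3/5 : ℝ) * h15 + (-4/5 : ℝ) * h16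
  · linear_combination (27/20 : ℝ) * h0 + (17/20 : ℝ) * h1 + (-1 : ℝ) * h2 + (-21/10 : ℝ) * h3 + (9/10 : ℝ) * h4 + (17/20 : ℝ) * h5 + (-4/5 : ℝ) * h6 + (1/4 : ℝ) * h7 + (-1/2 : ℝ) * h8 + (-1/2 : ℝ) * h9 + (-2/5 : ℝ) * h10 + (-3/10 : ℝ) * h11 + (-21/20 : ℝ) * h12 + (3/20 : ℝ) * h13 + (1/10 : ℝ) * h14 + (9/10 : ℝ) * h15 + (17/10 : ℝ) * h16
  · linear_combination (27/20 : ℝ) * h0 + (17/20 : ℝ) * h1 + (-1 : ℝ) * h2 + (-21/10 : ℝ) * h3 + (9/10 : ℝ) * h4 + (17/20 : ℝ) * h5 + (-4/5 : ℝ) * h6 + (-3/4 : ℝ) * h7 + (-1/2 : ℝ) * h8 + (-1/2 : ℝ) * h9 + (3/5 : ℝ) * h10 + (-13/10 : ℝ) * h11 + (-21/20 : ℝ) * h12 + (23/20 : ℝ) * h13 + (1/10 : ℝ) * h14 + (9/10 : ℝ) * h15 + (17/10 : ℝ) * h16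
  · linear_combination (-5/4 : ℝ) * h0 + (-3/4 : ℝ) * h1 + (1 : ℝ) * h2 + (3/2 : ℝ) * h3 + (-1/2 : ℝ) * h4 + (-3/4 : ℝ) * h5 + (1/4 : ℝ) * h7 + (-1/2 : ℝ) * h8 + (1/2 : ℝ) * h9 + (1/2 : ℝ) * h11 + (3/4 : ℝ) * h12 + (-1/4 : ℝ) * h13 + (1/2 : ℝ) * h14 + (-1/2 : ℝ) * h15 + (-1/2 : ℝ) * h16
  · linear_combination (2/5 : ℝ) * h0 + (2/5 : ℝ) * h1 + (-2/5 : ℝ) * h3 + (-2/5 : ℝ) * h4 + (2/5 : ℝ) * h5 + (4/5 : ℝ) * h6 + (1 : ℝ) * h8 + (-3/5 : ℝ) * h10 + (-1/5 : ℝ) * h11 + (4/5 : ℝ) * h12 + (-2/5 : ℝ) * h13 + (-3/5 : ℝ) * h14 + (-2/5 : ℝ) * h15 + (-1/5 : ℝ) * h16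
  · linear_combination (33/20 : ℝ) * h0 + (23/20 : ℝ) * h1 + (-1 : ℝ) * h2 + (-29/10 : ℝ) * h3 + (11/10 : ℝ) * h4 + (23/20 : ℝ) * h5 + (-6/5 : ℝ) * h6 + (-1/4 : ℝ) * h7 + (-1/2 : ℝ) * h8 + (-1/2 : ℝ) * h9 + (2/5 : ℝ) * h10 + (-7/10 : ℝ) * h11 + (-19/20 : ℝ) * h12 + (17/20 : ℝ) * h13 + (-1/10 : ℝ) * h14 + (11/10 : ℝ) * h15 + (13/10 : ℝ) * h16
  · linear_combination (-31/20 : ℝ) * h0 + (-21/20 : ℝ) * h1 + (1 : ℝ) * h2 + (23/10 : ℝ) * h3 + (-7/10 : ℝ) * h4 + (-21/20 : ℝ) * h5 + (2/5 : ℝ) * h6 + (-1/4 : ℝ) * h7 + (-1/2 : ℝ) * h8 + (1/2 : ℝ) * h9 + (1/5 : ℝ) * h10 + (9/10 : ℝ) * h11 + (13/20 : ℝ) * h12 + (1/20 : ℝ) * h13 + (7/10 : ℝ) * h14 + (-7/10 : ℝ) * h15 + (-11/10 : ℝ) * h16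
  · linear_combination (1/4 : ℝ) * h0 + (-1/4 : ℝ) * h1 + (-1/2 : ℝ) * h3 + (1/2 : ℝ) * h4 + (-1/4 : ℝ) * h5 + (-1 : ℝ) * h6 + (-1/4 : ℝ) * h7 + (-1/2 : ℝ) * h8 + (-1/2 : ℝ) * h9 + (1 : ℝ) * h10 + (-1/2 : ℝ) * h11 + (-3/4 : ℝ) * h12 + (5/4 : ℝ) * h13 + (1/2 : ℝ) * h14 + (1/2 : ℝ) * h15 + (1/2 : ℝ) * h16
  · linear_combination (-9/5 : ℝ) * h0 + (-4/5 : ℝ) * h1 + (1 : ℝ) * h2 + (9/5 : ℝ) * h3 + (-1/5 : ℝ) * h4 + (-4/5 : ℝ) * h5 + (2/5 : ℝ) * h6 + (1/5 : ℝ) * h10 + (2/5 : ℝ) * h11 + (2/5 : ℝ) * h12 + (-1/5 : ℝ) * h13 + (1/5 : ℝ) * h14 + (-1/5 : ℝ) * h15 + (-3/5 : ℝ) * h16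
  · linear_combination (-37/20 : ℝ) * h0 + (-27/20 : ℝ) * h1 + (1 : ℝ) * h2 + (31/10 : ℝ) * h3 + (-9/10 : ℝ) * h4 + (-27/20 : ℝ) * h5 + (4/5 : ℝ) * h6 + (1/4 : ℝ) * h7 + (1/2 : ℝ) * h8 + (1/2 : ℝ) * h9 + (2/5 : ℝ) * h10 + (13/10 : ℝ) * h11 + (11/20 : ℝ) * h12 + (-13/20 : ℝ) * h13 + (-1/10 : ℝ) * h14 + (-9/10 : ℝ) * h15 + (-17/10 : ℝ) * h16
  · linear_combination (-3/20 : ℝ) * h0 + (7/20 : ℝ) * h1 + (-1/10 : ℝ) * h3 + (-1/10 : ℝ) * h4 + (7/20 : ℝ) * h5 + (1/5 : ℝ) * h6 + (-1/4 : ℝ) * h7 + (1/2 : ℝ) * h8 + (1/2 : ℝ) * h9 + (-2/5 : ℝ) * h10 + (-3/10 : ℝ) * h11 + (9/20 : ℝ) * h12 + (-7/20 : ℝ) * h13 + (1/10 : ℝ) * h14 + (-1/10 : ℝ) * h15 + (-3/10 : ℝ) * h16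



theorem sol3 : Sys D3 0 P3 c3 := by
  refine ⟨?_, ?_, ?_, ?_, ?_, ?_⟩
  · simp [D3, P3, c3] <;> norm_num
  · simp [D3, P3, c3] <;> norm_num
  · simp [D3, P3, c3] <;> norm_num
  · simp [D3, P3, c3] <;> norm_num
  · simp [D3, P3, c3] <;> norm_num
  · intro s
    fin_cases s <;> simp [D3, P3, c3] <;> norm_num

theorem cert3 (Y : ℕ → ℝ) (z : Fin 13 → ℝ) (h : Sys D3 0 Y z) :
    ∃ t : ℝ, (∀ i, i < 5 → Y i = t * P3 i) ∧ ∀ s, z s = t * c3 s := by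
  obtain ⟨h0, h1, h2, h3, h4, h5⟩ := h
  have g0 := h5 0
  have g1 := h5 1
  have g2 := h5 2
  have g3 := h5 3
  have g4 := h5 4
  have g5 := h5 5
  have g6 := h5 6
  have g7 := h5 7
  have g8 := h5 8
  have g9 := h5 9
  have g10 := h5 10
  have g11 := h5 11
  have g12 := h5 12
  clear h5
  simp [D3] at h1 h2 h3 h4
  simp [D3] at g0
  simp [D3] at g1
  simp [D3] at g2
  simp [D3] at g3
  simp [D3] at g4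
  simp [D3] at g5
  simp [D3] at g6
  simp [D3] at g7
  simp [D3] at g8
  simp [D3] at g9
  simp [D3] at g10
  simp [D3] at g11
  simp [D3] at g12
  have key := lin3 (Y 0) (Y 1) (Y 2) (Y 3) (Y 4) (z 0) (z 1) (z 2) (z 3) (z 4) (z 5) (z 6) (z 7) (z 8) (z 9) (z 10) (z 11) (z 12)
    (by linarith) (by linarith) (by linarith) (by linarith) (by linarith) (by linarith) (by linarith) (by linarith) (by linarith) (by linarith) (by linarith) (by linarith) (by linarith) (by linarith) (by linarith) (by linarith) (by linarith) (by linarith)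
  obtain ⟨e0, e1, e2, e3, e4, e5, e6, e7, e8, e9, e10, e11, e12, e13, e14, e15, e16, e17⟩ := key
  refine ⟨Y 0 / 1, ?_, ?_⟩
  · intro i hi
    interval_cases i
    · rw [show P3 0 = (1 : ℝ) by simp [P3]]; exact e0
    · rw [show P3 1 = (-1 : ℝ) by simp [P3]]; exact e1
    · rw [show P3 2 = (1 : ℝ) by simp [P3]]; exact e2
    · rw [show P3 3 = (-3 : ℝ) by simp [P3]]; exact e3
    · rw [show P3 4 = (2 : ℝ) by simp [P3]]; exact e4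
  · intro s
    fin_cases s
    · show z 0 = Y 0 / 1 * c3 0
      rw [show c3 0 = (1 : ℝ) by simp [c3]]; exact e5
    · show z 1 = Y 0 / 1 * c3 1
      rw [show c3 1 = (-2 : ℝ) by simp [c3]]; exact e6
    · show z 2 = Y 0 / 1 * c3 2
      rw [show c3 2 = (-1 : ℝ) by simp [c3]]; exact e7
    · show z 3 = Y 0 / 1 * c3 3
      rw [show c3 3 = (-1 : ℝ) by simp [c3]]; exact e8
    · show z 4 = Y 0 / 1 * c3 4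
      rw [show c3 4 = (-1 : ℝ) by simp [c3]]; exact e9
    · show z 5 = Y 0 / 1 * c3 5
      rw [show c3 5 = (1 : ℝ) by simp [c3]]; exact e10
    · show z 6 = Y 0 / 1 * c3 6
      rw [show c3 6 = (-2 : ℝ) by simp [c3]]; exact e11
    · show z 7 = Y 0 / 1 * c3 7
      rw [show c3 7 = (-2 : ℝ) by simp [c3]]; exact e12
    · show z 8 = Y 0 / 1 * c3 8
      rw [show c3 8 = (2 : ℝ) by simp [c3]]; exact e13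
    · show z 9 = Y 0 / 1 * c3 9
      rw [show c3 9 = (1 : ℝ) by simp [c3]]; exact e14
    · show z 10 = Y 0 / 1 * c3 10
      rw [show c3 10 = (2 : ℝ) by simp [c3]]; exact e15
    · show z 11 = Y 0 / 1 * c3 11
      rw [show c3 11 = (3 : ℝ) by simp [c3]]; exact e16
    · show z 12 = Y 0 / 1 * c3 12
      rw [show c3 12 = (-1 : ℝ) by simp [c3]]; exact e17

theorem fam3 {n : ℕ} (hn : 18 ≤ n) (h5 : n % 5 = 3) : n ∈ N (n - 5) := by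
  refine mem_N (m := n - 13) (r := 0) (k := 13) (by omega) (by omega) (by norm_num) (by omega)
    D3 reg3 P3 c3 ?_ ?_ sol3 cert3
  · intro i hi
    interval_cases i <;> simp [P3]
  · intro s
    fin_cases s <;> simp [c3]

end Pool.Agent.TH991.Nut
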