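import Pool.Agent.TH991.Nut.Main

set_option autoImplicit false
open Finset

namespace Pool.Agent.TH991.Nut

/-- window 4: order congruent to 4 mod 5 -/
def D4 : Win 12 where
  T := ![{4, 6, 7, 9}, {5, 8, 9, 11}, {3, 4, 7, 9}, {2, 8, 10, 11}, {0, 2}, {1, 7, 8, 11}, {0, 10, 11}, {0, 2, 5, 8}, {1, 3, 5, 7}, {0, 1, 2}, {3, 6}, {1, 3, 5, 6}]
  A0 := {10, 9}
  A1 := {4}
  A2 := {10}
  A3 := {4, 6}

theorem reg4 : Reg D4 := by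
  refine ⟨by decide, by decide, by decide, by decide, by decide, by decide, by decide⟩

def P4 : ℕ → ℝ := fun i => if i = 0 then 1 else if i = 1 then -2 else if i = 2 then 1 else if i = 3 then -3 else 3

def c4 : Fin 12 → ℝ := ![4, -1, -3, 2, 3, 2, -5, -1, -2, -1, 1, 2]

theorem lin4 (y0 y1 y2 y3 y4 z0 z1 z2 z3 z4 z5 z6 z7 z8 z9 z10 z11 : ℝ)
    (h0 : y0 + y1 + y2 + y3 + y4 = 0)
    (h1 : y0 + y1 + y2 + z9 + z10 = 0)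
    (h2 : y0 + y1 + y2 + y3 + z4 = 0)
    (h3 : y0 + y1 + y3 + y4 + z10 = 0)
    (h4 : y0 + y1 + y4 + z4 + z6 = 0)
    (h5 : z0 + z4 + z6 + z7 + z9 = 0)
    (h6 : z1 + z5 + z8 + z9 + z11 = 0)
    (h7 : z2 + z3 + z4 + z7 + z9 = 0)
    (h8 : z2 + z3 + z8 + z10 + z11 = 0)
    (h9 : 2 * y1 + z0 + z2 + z4 = 0)
    (h10 : z1 + z5 + z7 + z8 + z11 = 0)
    (h11 : y1 + z0 + z6 + z10 + z11 = 0)
    (h12 : z0 + z2 + z5 + z7 + z8 = 0)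
    (h13 : z1 + z3 + z5 + z7 + z8 = 0)
    (h14 : y0 + z0 + z1 + z2 + z9 = 0)
    (h15 : 2 * y0 + z3 + z6 + z10 = 0)
    (h16 : z1 + z3 + z5 + z6 + z11 = 0)
    : y0 = y0 / 1 * (1) ∧
      y1 = y0 / 1 * (-2) ∧
      y2 = y0 / 1 * (1) ∧
      y3 = y0 / 1 * (-3) ∧
      y4 = y0 / 1 * (3) ∧
      z0 = y0 / 1 * (4) ∧
      z1 = y0 / 1 * (-1) ∧
      z2 = y0 / 1 * (-3) ∧
      z3 = y0 / 1 * (2) ∧
      z4 = y0 / 1 * (3) ∧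
      z5 = y0 / 1 * (2) ∧
      z6 = y0 / 1 * (-5) ∧
      z7 = y0 / 1 * (-1) ∧
      z8 = y0 / 1 * (-2) ∧
      z9 = y0 / 1 * (-1) ∧
      z10 = y0 / 1 * (1) ∧
      z11 = y0 / 1 * (2) := by
  refine ⟨?_, ?_, ?_, ?_, ?_, ?_, ?_, ?_, ?_, ?_, ?_, ?_, ?_, ?_, ?_, ?_, ?_⟩
  · linear_combination 0 * h0
  · linear_combination (5/4 : ℝ) * h0 + (-1/20 : ℝ) * h1 + (-6/5 : ℝ) * h2 + (-1/20 : ℝ) * h3 + (-6/5 : ℝ) * h4 + (11/10 : ℝ) * h5 + (7/20 : ℝ) * h6 + (-3/4 : ℝ) * h7 + (41/20 : ℝ) * h9 + (3/2 : ℝ) * h10 + (-37/20 : ℝ) * h11 + (-13/20 : ℝ) * h12 + (-6/5 : ℝ) * h13 + (-13/20 : ℝ) * h14 + (39/20 : ℝ) * h15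
  · linear_combination (-1/2 : ℝ) * h0 + (1/2 : ℝ) * h1 + (1 : ℝ) * h2 + (-1/2 : ℝ) * h3 + (1 : ℝ) * h4 + (-1 : ℝ) * h5 + (-1/2 : ℝ) * h6 + (1/2 : ℝ) * h7 + (-3/2 : ℝ) * h9 + (-1 : ℝ) * h10 + (3/2 : ℝ) * h11 + (1/2 : ℝ) * h12 + (1 : ℝ) * h13 + (1/2 : ℝ) * h14 + (-3/2 : ℝ) * h15
  · linear_combination (5/4 : ℝ) * h0 + (-13/20 : ℝ) * h1 + (-3/5 : ℝ) * h2 + (7/20 : ℝ) * h3 + (-8/5 : ℝ) * h4 + (13/10 : ℝ) * h5 + (11/20 : ℝ) * h6 + (-3/4 : ℝ) * h7 + (33/20 : ℝ) * h9 + (3/2 : ℝ) * h10 + (-41/20 : ℝ) * h11 + (-9/20 : ℝ) * h12 + (-8/5 : ℝ) * h13 + (-9/20 : ℝ) * h14 + (47/20 : ℝ) * h15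
  · linear_combination (-1 : ℝ) * h0 + (1/5 : ℝ) * h1 + (4/5 : ℝ) * h2 + (1/5 : ℝ) * h3 + (9/5 : ℝ) * h4 + (-7/5 : ℝ) * h5 + (-2/5 : ℝ) * h6 + (1 : ℝ) * h7 + (-11/5 : ℝ) * h9 + (-2 : ℝ) * h10 + (12/5 : ℝ) * h11 + (3/5 : ℝ) * h12 + (9/5 : ℝ) * h13 + (3/5 : ℝ) * h14 + (-14/5 : ℝ) * h15
  · linear_combination (-5/4 : ℝ) * h0 + (1/20 : ℝ) * h1 + (6/5 : ℝ) * h2 + (1/20 : ℝ) * h3 + (6/5 : ℝ) * h4 + (-11/10 : ℝ) * h5 + (-7/20 : ℝ) * h6 + (3/4 : ℝ) * h7 + (-41/20 : ℝ) * h9 + (-5/2 : ℝ) * h10 + (57/20 : ℝ) * h11 + (13/20 : ℝ) * h12 + (11/5 : ℝ) * h13 + (13/20 : ℝ) * h14 + (-59/20 : ℝ) * h15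
  · linear_combination (-1/4 : ℝ) * h0 + (1/20 : ℝ) * h1 + (1/5 : ℝ) * h2 + (1/20 : ℝ) * h3 + (1/5 : ℝ) * h4 + (-1/10 : ℝ) * h5 + (-7/20 : ℝ) * h6 + (-1/4 : ℝ) * h7 + (-1/20 : ℝ) * h9 + (1/2 : ℝ) * h10 + (-3/20 : ℝ) * h11 + (-7/20 : ℝ) * h12 + (1/5 : ℝ) * h13 + (13/20 : ℝ) * h14 + (1/20 : ℝ) * h15
  · linear_combination (3/4 : ℝ) * h0 + (-3/20 : ℝ) * h1 + (-3/5 : ℝ) * h2 + (-3/20 : ℝ) * h3 + (-3/5 : ℝ) * h4 + (3/10 : ℝ) * h5 + (1/20 : ℝ) * h6 + (-1/4 : ℝ) * h7 + (23/20 : ℝ) * h9 + (3/2 : ℝ) * h10 + (-31/20 : ℝ) * h11 + (1/20 : ℝ) * h12 + (-8/5 : ℝ) * h13 + (1/20 : ℝ) * h14 + (37/20 : ℝ) * h15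
  · linear_combination (-1/4 : ℝ) * h0 + (-3/20 : ℝ) * h1 + (2/5 : ℝ) * h2 + (-3/20 : ℝ) * h3 + (2/5 : ℝ) * h4 + (-7/10 : ℝ) * h5 + (1/20 : ℝ) * h6 + (3/4 : ℝ) * h7 + (-17/20 : ℝ) * h9 + (-3/2 : ℝ) * h10 + (29/20 : ℝ) * h11 + (1/20 : ℝ) * h12 + (7/5 : ℝ) * h13 + (1/20 : ℝ) * h14 + (-23/20 : ℝ) * h15
  · linear_combination (-2 : ℝ) * h0 + (1/5 : ℝ) * h1 + (9/5 : ℝ) * h2 + (1/5 : ℝ) * h3 + (9/5 : ℝ) * h4 + (-7/5 : ℝ) * h5 + (-2/5 : ℝ) * h6 + (1 : ℝ) * h7 + (-11/5 : ℝ) * h9 + (-2 : ℝ) * h10 + (12/5 : ℝ) * h11 + (3/5 : ℝ) * h12 + (9/5 : ℝ) * h13 + (3/5 : ℝ) * h14 + (-14/5 : ℝ) * h15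
  · linear_combination (-3/2 : ℝ) * h0 + (1/10 : ℝ) * h1 + (7/5 : ℝ) * h2 + (1/10 : ℝ) * h3 + (7/5 : ℝ) * h4 + (-11/5 : ℝ) * h5 + (3/10 : ℝ) * h6 + (3/2 : ℝ) * h7 + (-1 : ℝ) * h8 + (-21/10 : ℝ) * h9 + (-2 : ℝ) * h10 + (27/10 : ℝ) * h11 + (13/10 : ℝ) * h12 + (7/5 : ℝ) * h13 + (3/10 : ℝ) * h14 + (-19/10 : ℝ) * h15
  · linear_combination (7/4 : ℝ) * h0 + (-7/20 : ℝ) * h1 + (-7/5 : ℝ) * h2 + (-7/20 : ℝ) * h3 + (-7/5 : ℝ) * h4 + (17/10 : ℝ) * h5 + (9/20 : ℝ) * h6 + (-5/4 : ℝ) * h7 + (47/20 : ℝ) * h9 + (5/2 : ℝ) * h10 + (-59/20 : ℝ) * h11 + (-11/20 : ℝ) * h12 + (-12/5 : ℝ) * h13 + (-11/20 : ℝ) * h14 + (73/20 : ℝ) * h15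
  · linear_combination (3/4 : ℝ) * h0 + (1/20 : ℝ) * h1 + (-4/5 : ℝ) * h2 + (1/20 : ℝ) * h3 + (-4/5 : ℝ) * h4 + (9/10 : ℝ) * h5 + (-7/20 : ℝ) * h6 + (-1/4 : ℝ) * h7 + (19/20 : ℝ) * h9 + (3/2 : ℝ) * h10 + (-23/20 : ℝ) * h11 + (-7/20 : ℝ) * h12 + (-4/5 : ℝ) * h13 + (-7/20 : ℝ) * h14 + (21/20 : ℝ) * h15
  · linear_combination (5/4 : ℝ) * h0 + (-1/20 : ℝ) * h1 + (-6/5 : ℝ) * h2 + (-1/20 : ℝ) * h3 + (-6/5 : ℝ) * h4 + (21/10 : ℝ) * h5 + (7/20 : ℝ) * h6 + (-7/4 : ℝ) * h7 + (1 : ℝ) * h8 + (41/20 : ℝ) * h9 + (3/2 : ℝ) * h10 + (-57/20 : ℝ) * h11 + (-13/20 : ℝ) * h12 + (-6/5 : ℝ) * h13 + (-13/20 : ℝ) * h14 + (39/20 : ℝ) * h15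
  · linear_combination (3/4 : ℝ) * h0 + (1/20 : ℝ) * h1 + (-4/5 : ℝ) * h2 + (1/20 : ℝ) * h3 + (-4/5 : ℝ) * h4 + (9/10 : ℝ) * h5 + (13/20 : ℝ) * h6 + (-1/4 : ℝ) * h7 + (19/20 : ℝ) * h9 + (1/2 : ℝ) * h10 + (-23/20 : ℝ) * h11 + (-7/20 : ℝ) * h12 + (-4/5 : ℝ) * h13 + (-7/20 : ℝ) * h14 + (21/20 : ℝ) * h15
  · linear_combination (-3/2 : ℝ) * h0 + (1/2 : ℝ) * h1 + (1 : ℝ) * h2 + (1/2 : ℝ) * h3 + (1 : ℝ) * h4 + (-1 : ℝ) * h5 + (-1/2 : ℝ) * h6 + (1/2 : ℝ) * h7 + (-3/2 : ℝ) * h9 + (-1 : ℝ) * h10 + (3/2 : ℝ) * h11 + (1/2 : ℝ) * h12 + (1 : ℝ) * h13 + (1/2 : ℝ) * h14 + (-3/2 : ℝ) * h15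
  · linear_combination (-1/4 : ℝ) * h0 + (-3/20 : ℝ) * h1 + (2/5 : ℝ) * h2 + (-3/20 : ℝ) * h3 + (2/5 : ℝ) * h4 + (-7/10 : ℝ) * h5 + (1/20 : ℝ) * h6 + (3/4 : ℝ) * h7 + (-17/20 : ℝ) * h9 + (-1/2 : ℝ) * h10 + (29/20 : ℝ) * h11 + (1/20 : ℝ) * h12 + (2/5 : ℝ) * h13 + (1/20 : ℝ) * h14 + (-23/20 : ℝ) * h15


theorem sol4 : Sys D4 2 P4 c4 := by
  refine ⟨?_, ?_, ?_, ?_, ?_, ?_⟩
  · simp [D4, P4, c4] <;> norm_num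
  · simp [D4, P4, c4] <;> norm_num
  · simp [D4, P4, c4] <;> norm_num
  · simp [D4, P4, c4] <;> norm_num
  · simp [D4, P4, c4] <;> norm_num
  · intro s
    fin_cases s <;> simp [D4, P4, c4] <;> norm_num

theorem cert4 (Y : ℕ → ℝ) (z : Fin 12 → ℝ) (h : Sys D4 2 Y z) :
    ∃ t : ℝ, (∀ i, i < 5 → Y i = t * P4 i) ∧ ∀ s, z s = t * c4 s := by
  obtain ⟨h0, h1, h2, h3, h4, h5⟩ := h
  have g0 := h5 0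
  have g1 := h5 1
  have g2 := h5 2
  have g3 := h5 3
  have g4 := h5 4
  have g5 := h5 5
  have g6 := h5 6
  have g7 := h5 7
  have g8 := h5 8
  have g9 := h5 9
  have g10 := h5 10
  have g11 := h5 11
  clear h5
  simp [D4] at h1 h2 h3 h4
  simp [D4] at g0
  simp [D4] at g1
  simp [D4] at g2
  simp [D4] at g3
  simp [D4] at g4
  simp [D4] at g5
  simp [D4] at g6
  simp [D4] at g7
  simp [D4] at g8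
  simp [D4] at g9
  simp [D4] at g10
  simp [D4] at g11
  have key := lin4 (Y 0) (Y 1) (Y 2) (Y 3) (Y 4) (z 0) (z 1) (z 2) (z 3) (z 4) (z 5) (z 6) (z 7) (z 8) (z 9) (z 10) (z 11)
    (by linarith) (by linarith) (by linarith) (by linarith) (by linarith) (by linarith) (by linarith) (by linarith) (by linarith) (by linarith) (by linarith) (by linarith) (by linarith) (by linarith) (by linarith) (by linarith) (by linarith)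
  obtain ⟨e0, e1, e2, e3, e4, e5, e6, e7, e8, e9, e10, e11, e12, e13, e14, e15, e16⟩ := key
  refine ⟨Y 0 / 1, ?_, ?_⟩
  · intro i hi
    interval_cases i
    · rw [show P4 0 = (1 : ℝ) by simp [P4]]; exact e0
    · rw [show P4 1 = (-2 : ℝ) by simp [P4]]; exact e1
    · rw [show P4 2 = (1 : ℝ) by simp [P4]]; exact e2
    · rw [show P4 3 = (-3 : ℝ) by simp [P4]]; exact e3
    · rw [show P4 4 = (3 : ℝ) by simp [P4]]; exact e4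
  · intro s
    fin_cases s
    · show z 0 = Y 0 / 1 * c4 0
      rw [show c4 0 = (4 : ℝ) by simp [c4]]; exact e5
    · show z 1 = Y 0 / 1 * c4 1
      rw [show c4 1 = (-1 : ℝ) by simp [c4]]; exact e6
    · show z 2 = Y 0 / 1 * c4 2
      rw [show c4 2 = (-3 : ℝ) by simp [c4]]; exact e7
    · show z 3 = Y 0 / 1 * c4 3
      rw [show c4 3 = (2 : ℝ) by simp [c4]]; exact e8
    · show z 4 = Y 0 / 1 * c4 4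
      rw [show c4 4 = (3 : ℝ) by simp [c4]]; exact e9
    · show z 5 = Y 0 / 1 * c4 5
      rw [show c4 5 = (2 : ℝ) by simp [c4]]; exact e10
    · show z 6 = Y 0 / 1 * c4 6
      rw [show c4 6 = (-5 : ℝ) by simp [c4]]; exact e11
    · show z 7 = Y 0 / 1 * c4 7
      rw [show c4 7 = (-1 : ℝ) by simp [c4]]; exact e12
    · show z 8 = Y 0 / 1 * c4 8
      rw [show c4 8 = (-2 : ℝ) by simp [c4]]; exact e13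
    · show z 9 = Y 0 / 1 * c4 9
      rw [show c4 9 = (-1 : ℝ) by simp [c4]]; exact e14
    · show z 10 = Y 0 / 1 * c4 10
      rw [show c4 10 = (1 : ℝ) by simp [c4]]; exact e15
    · show z 11 = Y 0 / 1 * c4 11
      rw [show c4 11 = (2 : ℝ) by simp [c4]]; exact e16

theorem fam4 {n : ℕ} (hn : 19 ≤ n) (h5 : n % 5 = 4) : n ∈ N (n - 5) := by
  refine mem_N (m := n - 12) (r := 2) (k := 12) (by omega) (by omega) (by norm_num) (by omega)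
    D4 reg4 P4 c4 ?_ ?_ sol4 cert4
  · intro i hi
    interval_cases i <;> simp [P4]
  · intro s
    fin_cases s <;> simp [c4]

end Pool.Agent.TH991.Nut
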