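import Pool.Agent.TH991.Nut.Base

set_option autoImplicit false
open Finset

namespace Pool.Agent.TH991.Nut

variable {k : ℕ}

/-- The reduced linear system. -/
def Sys (D : Win k) (r : ℕ) (Y : ℕ → ℝ) (z : Fin k → ℝ) : Prop :=
  Y 0 + Y 1 + Y 2 + Y 3 + Y 4 = 0 ∧
  Y 0 + Y 1 + Y 2 + ∑ s ∈ D.A0, z s = 0 ∧
  Y 0 + Y 1 + Y 2 + Y 3 + ∑ s ∈ D.A1, z s = 0 ∧
  Y ((r + 1) % 5) + Y ((r + 2) % 5) + Y ((r + 3) % 5) + Y ((r + 4) % 5) +
    ∑ s ∈ D.A2, z s = 0 ∧
  Y ((r + 2) % 5) + Y ((r + 3) % 5) + Y ((r + 4) % 5) + ∑ s ∈ D.A3, z s = 0 ∧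
  ∀ s, z s + ∑ t ∈ D.T s, z t + ((if s ∈ D.A0 then Y 0 else 0) +
    (if s ∈ D.A1 then Y 1 else 0) + (if s ∈ D.A2 then Y ((r + 3) % 5) else 0) +
    (if s ∈ D.A3 then Y ((r + 4) % 5) else 0)) = 0

theorem five (P : ℕ → ℝ) (j : ℕ) : P (j % 5) + P ((j + 1) % 5) + P ((j + 2) % 5) +
    P ((j + 3) % 5) + P ((j + 4) % 5) = P 0 + P 1 + P 2 + P 3 + P 4 := by
  have h5 : j % 5 < 5 := Nat.mod_lt _ (by norm_num)
  rcases (by omega : j % 5 = 0 ∨ j % 5 = 1 ∨ j % 5 = 2 ∨ j % 5 = 3 ∨ j % 5 = 4) with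
    h | h | h | h | h
  · rw [h, show (j + 1) % 5 = 1 by omega, show (j + 2) % 5 = 2 by omega,
      show (j + 3) % 5 = 3 by omega, show (j + 4) % 5 = 4 by omega]
  · rw [h, show (j + 1) % 5 = 2 by omega, show (j + 2) % 5 = 3 by omega,
      show (j + 3) % 5 = 4 by omega, show (j + 4) % 5 = 0 by omega]
    ring
  · rw [h, show (j + 1) % 5 = 3 by omega, show (j + 2) % 5 = 4 by omega,
      show (j + 3) % 5 = 0 by omega, show (j + 4) % 5 = 1 by omega]
    ring
  · rw [h, show (j + 1) % 5 = 4 by omega, show (j + 2) % 5 = 0 by omega,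
      show (j + 3) % 5 = 1 by omega, show (j + 4) % 5 = 2 by omega]
    ring
  · rw [h, show (j + 1) % 5 = 0 by omega, show (j + 2) % 5 = 1 by omega,
      show (j + 3) % 5 = 2 by omega, show (j + 4) % 5 = 3 by omega]
    ring

theorem cases_v {m : ℕ} (hm : 5 ≤ m) (i : Fin m) : (i : ℕ) = 0 ∨ (i : ℕ) = 1 ∨ (i : ℕ) + 2 = m ∨
    (i : ℕ) + 1 = m ∨ ∃ j, j + 4 < m ∧ (i : ℕ) = j + 2 := by
  have hi := i.2
  by_cases h0 : (i : ℕ) = 0
  · exact Or.inl h0
  by_cases h1 : (i : ℕ) = 1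
  · exact Or.inr (Or.inl h1)
  by_cases h2 : (i : ℕ) + 2 = m
  · exact Or.inr (Or.inr (Or.inl h2))
  by_cases h3 : (i : ℕ) + 1 = m
  · exact Or.inr (Or.inr (Or.inr (Or.inl h3)))
  · exact Or.inr (Or.inr (Or.inr (Or.inr ⟨i - 2, by omega, by omega⟩)))

theorem sys_of_K {m r : ℕ} (hm : 5 ≤ m) (hr : m % 5 = r) (D : Win k) (y : Fin m ⊕ Fin k → ℝ)
    (hK : ∀ v, y v + SH m D y v = 0) :
    (∀ c, c < m → Yx (fun i => y (.inl i)) c = Yx (fun i => y (.inl i)) (c % 5)) ∧
    Sys D r (Yx (fun i => y (.inl i))) (fun s => y (.inr s)) := by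
  set Y := Yx (fun i : Fin m => y (.inl i)) with hY
  have hYi : ∀ c (h : c < m), y (.inl ⟨c, h⟩) = Y c := fun c h => by rw [hY, Yx_of_lt _ h]
  have hint : ∀ j, j + 4 < m → Y j + Y (j + 1) + Y (j + 2) + Y (j + 3) + Y (j + 4) = 0 := by
    intro j hj
    have h := hK (.inl ⟨j + 2, by omega⟩)
    rw [SH_int D y j hj _ rfl, hYi] at h
    linarith
  have hper : ∀ c, c < m → Y c = Y (c % 5) := by
    intro c
    induction c using Nat.strong_induction_on with
    | _ c ih =>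
      intro hc
      by_cases h5 : c < 5
      · rw [Nat.mod_eq_of_lt h5]
      · obtain ⟨d, rfl⟩ : ∃ d, c = d + 5 := ⟨c - 5, by omega⟩
        have h1 := hint d (by omega)
        have h2 := hint (d + 1) (by omega)
        have h3 := ih d (by omega) (by omega)
        rw [Nat.add_mod_right, ← h3]
        have e : d + 1 + 1 = d + 2 := rfl
        have e2 : d + 1 + 2 = d + 3 := rfl
        have e3 : d + 1 + 3 = d + 4 := rfl
        have e4 : d + 1 + 4 = d + 5 := rfl
        rw [e, e2, e3, e4] at h2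
        linarith
  refine ⟨hper, ?_⟩
  have q1 : Y (m - 1) = Y ((r + 4) % 5) := by
    rw [hper (m - 1) (by omega), show (m - 1) % 5 = (r + 4) % 5 by omega]
  have q2 : Y (m - 2) = Y ((r + 3) % 5) := by
    rw [hper (m - 2) (by omega), show (m - 2) % 5 = (r + 3) % 5 by omega]
  have q3 : Y (m - 3) = Y ((r + 2) % 5) := by
    rw [hper (m - 3) (by omega), show (m - 3) % 5 = (r + 2) % 5 by omega]
  have q4 : Y (m - 4) = Y ((r + 1) % 5) := by
    rw [hper (m - 4) (by omega), show (m - 4) % 5 = (r + 1) % 5 by omega]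
  have a0 := hK (.inl ⟨0, by omega⟩)
  rw [SH_0 hm D y _ rfl, hYi] at a0
  have a1 := hK (.inl ⟨1, by omega⟩)
  rw [SH_1 hm D y _ rfl, hYi] at a1
  have a2 := hK (.inl ⟨m - 2, by omega⟩)
  rw [SH_2 hm D y _ (by show m - 2 + 2 = m; omega), hYi] at a2
  have a3 := hK (.inl ⟨m - 1, by omega⟩)
  rw [SH_3 hm D y _ (by show m - 1 + 1 = m; omega), hYi] at a3
  rw [← hY] at a0 a1 a2 a3
  rw [q1, q2, q3, q4] at a2
  rw [q1, q2, q3] at a3
  refine ⟨by simpa using hint 0 (by omega), by linarith, by linarith, by linarith, by linarith, ?_⟩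
  intro s
  have a4 := hK (.inr s)
  rw [SH_s hm D y s, ← hY, q1, q2] at a4
  linarith

theorem K_of_sys {m r : ℕ} (hm : 5 ≤ m) (hr : m % 5 = r) (D : Win k) (P : ℕ → ℝ) (c : Fin k → ℝ)
    (h : Sys D r P c) (v : Fin m ⊕ Fin k) :
    (Sum.elim (fun i : Fin m => P ((i : ℕ) % 5)) c) v +
      SH m D (Sum.elim (fun i : Fin m => P ((i : ℕ) % 5)) c) v = 0 := by
  set x : Fin m ⊕ Fin k → ℝ := Sum.elim (fun i : Fin m => P ((i : ℕ) % 5)) c with hx
  have hY : ∀ c', c' < m → Yx (fun i => x (.inl i)) c' = P (c' % 5) := by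
    intro c' hc'
    rw [Yx_of_lt _ hc', hx]
    rfl
  obtain ⟨h1, h2, h3, h4, h5, h6⟩ := h
  have hxi : ∀ i : Fin m, x (.inl i) = P ((i : ℕ) % 5) := fun i => rfl
  have hxs : ∀ s, x (.inr s) = c s := fun i => rfl
  rcases v with i | s
  · rcases cases_v hm i with hi | hi | hi | hi | ⟨j, hj, hi⟩
    · rw [SH_0 hm D x i hi, hY 1 (by omega), hY 2 (by omega), hxi, hi]
      simp only [hxs]
      norm_num
      linarith
    · rw [SH_1 hm D x i hi, hY 0 (by omega), hY 2 (by omega), hY 3 (by omega), hxi, hi]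
      simp only [hxs]
      norm_num
      linarith
    · rw [SH_2 hm D x i hi, hY (m - 4) (by omega), hY (m - 3) (by omega), hY (m - 1) (by omega),
        hxi, show (i : ℕ) % 5 = (r + 3) % 5 by omega, show (m - 4) % 5 = (r + 1) % 5 by omega,
        show (m - 3) % 5 = (r + 2) % 5 by omega, show (m - 1) % 5 = (r + 4) % 5 by omega]
      simp only [hxs]
      linarith
    · rw [SH_3 hm D x i hi, hY (m - 3) (by omega), hY (m - 2) (by omega),
        hxi, show (i : ℕ) % 5 = (r + 4) % 5 by omega, show (m - 2) % 5 = (r + 3) % 5 by omega,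
        show (m - 3) % 5 = (r + 2) % 5 by omega]
      simp only [hxs]
      linarith
    · rw [SH_int D x j hj i hi, hY j (by omega), hY (j + 1) (by omega), hY (j + 3) (by omega),
        hY (j + 4) (by omega), hxi, hi]
      have := five P j
      linarith
  · rw [SH_s hm D x s, hY 0 (by omega), hY 1 (by omega), hY (m - 2) (by omega),
      hY (m - 1) (by omega), show (m - 2) % 5 = (r + 3) % 5 by omega,
      show (m - 1) % 5 = (r + 4) % 5 by omega]
    have := h6 s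
    simp only [hxs]
    norm_num at this ⊢
    linarith

/-- The window is `4`-regular in total. -/
def Reg (D : Win k) : Prop :=
  (∀ s t, t ∈ D.T s ↔ s ∈ D.T t) ∧ (∀ s, s ∉ D.T s) ∧ D.A0.card = 2 ∧ D.A1.card = 1 ∧
  D.A2.card = 1 ∧ D.A3.card = 2 ∧
  ∀ s, (D.T s).card + ((if s ∈ D.A0 then 1 else 0) + (if s ∈ D.A1 then 1 else 0) +
    (if s ∈ D.A2 then 1 else 0) + (if s ∈ D.A3 then 1 else 0)) = 4

theorem SH_one {m : ℕ} (hm : 5 ≤ m) (D : Win k) (hD : Reg D) (v : Fin m ⊕ Fin k) :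
    SH m D (fun _ => 1) v = 4 := by
  have hY : ∀ c', c' < m → Yx (fun _ : Fin m => (1 : ℝ)) c' = 1 := fun c' hc' => Yx_of_lt _ hc'
  obtain ⟨_, _, h0, h1, h2, h3, h4⟩ := hD
  rcases v with i | s
  · rcases cases_v hm i with hi | hi | hi | hi | ⟨j, hj, hi⟩
    · rw [SH_0 hm D _ i hi, hY 1 (by omega), hY 2 (by omega), sum_const, h0]
      norm_num
    · rw [SH_1 hm D _ i hi, hY 0 (by omega), hY 2 (by omega), hY 3 (by omega), sum_const, h1]
      norm_num
    · rw [SH_2 hm D _ i hi, hY (m - 4) (by omega), hY (m - 3) (by omega), hY (m - 1) (by omega),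
        sum_const, h2]
      norm_num
    · rw [SH_3 hm D _ i hi, hY (m - 3) (by omega), hY (m - 2) (by omega), sum_const, h3]
      norm_num
    · rw [SH_int D _ j hj i hi, hY j (by omega), hY (j + 1) (by omega), hY (j + 3) (by omega),
        hY (j + 4) (by omega)]
      norm_num
  · rw [SH_s hm D _ s, hY 0 (by omega), hY 1 (by omega), hY (m - 2) (by omega),
      hY (m - 1) (by omega), sum_const]
    have h := h4 s
    have h' : ((((D.T s).card + ((if s ∈ D.A0 then 1 else 0) + (if s ∈ D.A1 then 1 else 0) +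
      (if s ∈ D.A2 then 1 else 0) + (if s ∈ D.A3 then 1 else 0)) : ℕ)) : ℝ) = ((4 : ℕ) : ℝ) := by
      rw [h]
    push_cast at h'
    rw [nsmul_eq_mul, mul_one]
    exact h'

/-- The `4`-regular graph. -/
def gH (m : ℕ) (D : Win k) (hD : Reg D) : SimpleGraph (Fin m ⊕ Fin k) where
  Adj := adjH m D
  symm := ⟨by
    intro a b h
    rcases a with a | a <;> rcases b with b | b <;> simp only [adjH] at h ⊢
    · omega
    · exact h
    · exact h
    · exact (hD.1 a b).1 h⟩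
  loopless := ⟨by
    intro a h
    rcases a with a | a <;> simp only [adjH] at h
    · omega
    · exact hD.2.1 a h⟩

instance (m : ℕ) (D : Win k) (hD : Reg D) : DecidableRel (gH m D hD).Adj :=
  inferInstanceAs (DecidableRel (adjH m D))

/-- Nut graphs: order at least two, and the kernel of the adjacency matrix over `ℝ` is spanned by
one vector without zero entries. -/
def IsNut {V : Type} [Fintype V] [DecidableEq V] (G : SimpleGraph V) [DecidableRel G.Adj] : Prop :=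
  2 ≤ Fintype.card V ∧ ∃ x : V → ℝ, (∀ v, x v ≠ 0) ∧
    ∀ y : V → ℝ, (G.adjMatrix ℝ).mulVec y = 0 ↔ ∃ c : ℝ, y = c • x

theorem gH_regular {m : ℕ} (hm : 5 ≤ m) (D : Win k) (hD : Reg D) :
    (gH m D hD).IsRegularOfDegree 4 := by
  intro v
  have h := SH_one hm D hD v
  unfold SH at h
  rw [← Finset.sum_filter, Finset.sum_const, nsmul_eq_mul, mul_one] at h
  have h2 : (univ.filter fun w => adjH m D v w).card = 4 := by exact_mod_cast h
  rw [← SimpleGraph.card_neighborFinset_eq_degree, ← h2]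
  congr 1
  ext w
  simp [gH]

theorem mulVec_compl {m : ℕ} (D : Win k) (hD : Reg D) (y : Fin m ⊕ Fin k → ℝ)
    (v : Fin m ⊕ Fin k) :
    (((gH m D hD)ᶜ).adjMatrix ℝ).mulVec y v = ∑ w, y w - y v - SH m D y v := by
  rw [SimpleGraph.adjMatrix_mulVec_apply]
  have h1 : ∑ u ∈ ((gH m D hD)ᶜ).neighborFinset v, y u =
      ∑ w, (if ((gH m D hD)ᶜ).Adj v w then y w else 0) := by
    rw [← Finset.sum_filter]
    refine Finset.sum_congr ?_ fun _ _ => rfl
    ext w
    simp
  have h2 : y v = ∑ w, (if w = v then y w else 0) := by simp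
  rw [h1, SH, eq_sub_iff_add_eq, eq_sub_iff_add_eq]
  conv_lhs => rw [h2]
  rw [← Finset.sum_add_distrib, ← Finset.sum_add_distrib]
  refine Finset.sum_congr rfl fun w _ => ?_
  have hirr : ¬ adjH m D v v := (gH m D hD).loopless.irrefl v
  have hiff : ((gH m D hD)ᶜ).Adj v w ↔ v ≠ w ∧ ¬ adjH m D v w := SimpleGraph.compl_adj _ v w
  by_cases hw : w = v
  · subst hw
    rw [if_neg (by rw [hiff]; simp), if_neg hirr, if_pos rfl]
    ring
  · have hw' : v ≠ w := fun h => hw h.symm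
    by_cases ha : adjH m D v w
    · rw [if_neg (by rw [hiff]; simp [ha]), if_pos ha, if_neg hw]
      ring
    · rw [if_pos (by rw [hiff]; exact ⟨hw', ha⟩), if_neg ha, if_neg hw]
      ring

theorem nut {m r : ℕ} (hm : 5 ≤ m) (hr : m % 5 = r) (hk : 1 ≤ k) (D : Win k) (hD : Reg D)
    (P : ℕ → ℝ) (c : Fin k → ℝ) (hP : ∀ i, i < 5 → P i ≠ 0) (hc : ∀ s, c s ≠ 0)
    (hsol : Sys D r P c)
    (hcert : ∀ (Y : ℕ → ℝ) (z : Fin k → ℝ), Sys D r Y z →
      ∃ t : ℝ, (∀ i, i < 5 → Y i = t * P i) ∧ ∀ s, z s = t * c s) :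
    IsNut (gH m D hD)ᶜ := by
  have hcard : Fintype.card (Fin m ⊕ Fin k) = m + k := by simp
  refine ⟨by rw [hcard]; omega, Sum.elim (fun i : Fin m => P ((i : ℕ) % 5)) c, ?_, ?_⟩
  · rintro (i | s)
    · exact hP _ (Nat.mod_lt _ (by norm_num))
    · exact hc s
  -- the sum of `SH y` is four times the sum of `y`
  have hsum : ∀ y : Fin m ⊕ Fin k → ℝ, ∑ v, SH m D y v = 4 * ∑ w, y w := by
    intro y
    unfold SH
    rw [Finset.sum_comm, Finset.mul_sum]
    refine Finset.sum_congr rfl fun w _ => ?_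
    have h := SH_one hm D hD w
    unfold SH at h
    rw [← Finset.sum_filter] at h ⊢
    rw [Finset.sum_const, nsmul_eq_mul] at h ⊢
    have e : (univ.filter fun v => adjH m D v w) = univ.filter fun v => adjH m D w v := by
      ext v
      simp only [mem_filter, mem_univ, true_and]
      exact ⟨fun h => SimpleGraph.Adj.symm (G := gH m D hD) h,
        fun h => SimpleGraph.Adj.symm (G := gH m D hD) h⟩
    rw [e]
    rw [mul_one] at h
    rw [h]
  intro y
  constructor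
  · intro hy
    have h1 : ∀ v, ∑ w, y w - y v - SH m D y v = 0 := fun v => by
      rw [← mulVec_compl D hD y v, hy]; rfl
    have hS : ∑ w, y w = 0 := by
      have h2 : ∑ v, (∑ w, y w - y v - SH m D y v) = 0 := Finset.sum_eq_zero fun v _ => h1 v
      rw [Finset.sum_sub_distrib, Finset.sum_sub_distrib, hsum, Finset.sum_const,
        Finset.card_univ, hcard, nsmul_eq_mul] at h2
      push_cast at h2
      have h3 : ((m : ℝ) + k - 5) * ∑ w, y w = 0 := by linarith
      rcases mul_eq_zero.1 h3 with h4 | h4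
      · exfalso
        have h5 : (5 : ℝ) ≤ m := by exact_mod_cast hm
        have h6 : (1 : ℝ) ≤ k := by exact_mod_cast hk
        linarith
      · exact h4
    have hK : ∀ v, y v + SH m D y v = 0 := fun v => by
      have := h1 v
      rw [hS] at this
      linarith
    obtain ⟨hper, hsys⟩ := sys_of_K hm hr D y hK
    obtain ⟨t, ht1, ht2⟩ := hcert _ _ hsys
    refine ⟨t, ?_⟩
    funext v
    rcases v with i | s
    · have h7 : y (.inl i) = Yx (fun i => y (.inl i)) i := by rw [Yx_of_lt _ i.2]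
      rw [h7, hper i i.2, ht1 _ (Nat.mod_lt _ (by norm_num))]
      rfl
    · rw [ht2 s]
      rfl
  · rintro ⟨t, rfl⟩
    set x : Fin m ⊕ Fin k → ℝ := Sum.elim (fun i : Fin m => P ((i : ℕ) % 5)) c with hx
    have hK : ∀ v, x v + SH m D x v = 0 := K_of_sys hm hr D P c hsol
    have hS : ∑ w, x w = 0 := by
      have h2 : ∑ v, (x v + SH m D x v) = 0 := Finset.sum_eq_zero fun v _ => hK v
      rw [Finset.sum_add_distrib, hsum] at h2
      linarith
    rw [Matrix.mulVec_smul]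
    have : (((gH m D hD)ᶜ).adjMatrix ℝ).mulVec x = 0 := by
      funext v
      rw [mulVec_compl D hD x v, hS]
      have := hK v
      show 0 - x v - SH m D x v = 0
      linarith
    rw [this, smul_zero]

/-- `N(ρ)`: the orders of `ρ`-regular nut graphs. -/
def N (ρ : ℕ) : Set ℕ :=
  {n | ∃ (V : Type) (_ : Fintype V) (_ : DecidableEq V) (G : SimpleGraph V)
    (_ : DecidableRel G.Adj), Fintype.card V = n ∧ G.IsRegularOfDegree ρ ∧ IsNut G}

theorem mem_N {m r n : ℕ} (hm : 5 ≤ m) (hr : m % 5 = r) (hk : 1 ≤ k) (hn : n = m + k)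
    (D : Win k) (hD : Reg D)
    (P : ℕ → ℝ) (c : Fin k → ℝ) (hP : ∀ i, i < 5 → P i ≠ 0) (hc : ∀ s, c s ≠ 0)
    (hsol : Sys D r P c)
    (hcert : ∀ (Y : ℕ → ℝ) (z : Fin k → ℝ), Sys D r Y z →
      ∃ t : ℝ, (∀ i, i < 5 → Y i = t * P i) ∧ ∀ s, z s = t * c s) :
    n ∈ N (n - 5) := by
  have hcard : Fintype.card (Fin m ⊕ Fin k) = n := by simp [hn]
  refine ⟨Fin m ⊕ Fin k, inferInstance, inferInstance, (gH m D hD)ᶜ, inferInstance, hcard, ?_,
    nut hm hr hk D hD P c hP hc hsol hcert⟩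
  have h := (gH_regular hm D hD).compl
  rw [hcard] at h
  rwa [show n - 1 - 4 = n - 5 by omega] at h

end Pool.Agent.TH991.Nut
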