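import Pool.Agent.TH991.Nut.Fam0
import Pool.Agent.TH991.Nut.Fam1
import Pool.Agent.TH991.Nut.Fam2
import Pool.Agent.TH991.Nut.Fam3
import Pool.Agent.TH991.Nut.Fam4

set_option autoImplicit false
open Finset

namespace Pool.Agent.TH991.Nut

variable {k : ℕ}

theorem nut' {m r : ℕ} (hm : 5 ≤ m) (hr : m % 5 = r) (hk : 1 ≤ k) (D : Win k) (hD : Reg D)
    (P : ℕ → ℝ) (c : Fin k → ℝ) (hP : ∀ i, i < 5 → P i ≠ 0) (hc : ∀ s, c s ≠ 0)
    (hsol : Sys D r P c)
    (hcert : ∀ (Y : ℕ → ℝ) (z : Fin k → ℝ), Sys D r Y z →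
      ∃ t : ℝ, (∀ i, i < 5 → Y i = t * P i) ∧ ∀ s, z s = t * c s) :
    (∀ v, (Sum.elim (fun i : Fin m => P ((i : ℕ) % 5)) c : Fin m ⊕ Fin k → ℝ) v ≠ 0) ∧
    ∀ y : Fin m ⊕ Fin k → ℝ, (((gH m D hD)ᶜ).adjMatrix ℝ).mulVec y = 0 ↔
      ∃ t : ℝ, y = t • (Sum.elim (fun i : Fin m => P ((i : ℕ) % 5)) c : Fin m ⊕ Fin k → ℝ) := by
  have hcard : Fintype.card (Fin m ⊕ Fin k) = m + k := by simp
  refine ⟨?_, ?_⟩
  · rintro (i | s)
    · exact hP _ (Nat.mod_lt _ (by norm_num))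
    · exact hc s
  -- the sum of `SH y` is four times the sum of `y`
  have hsum : ∀ y : Fin m ⊕ Fin k → ℝ, ∑ v, SH m D y v = 4 * ∑ w, y w := by
    intro y
    unfold SH
    rw [Finset.sum_comm, Finset.mul_sum]
    refine Finset.sum_congr rfl fun w _ => ?_
    have h := SH_one hm D hD w
    unfold SH at h
    rw [← Finset.sum_filter] at h ⊢
    rw [Finset.sum_const, nsmul_eq_mul] at h ⊢
    have e : (univ.filter fun v => adjH m D v w) = univ.filter fun v => adjH m D w v := by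
      ext v
      simp only [mem_filter, mem_univ, true_and]
      exact ⟨fun h => SimpleGraph.Adj.symm (G := gH m D hD) h,
        fun h => SimpleGraph.Adj.symm (G := gH m D hD) h⟩
    rw [e]
    rw [mul_one] at h
    rw [h]
  intro y
  constructor
  · intro hy
    have h1 : ∀ v, ∑ w, y w - y v - SH m D y v = 0 := fun v => by
      rw [← mulVec_compl D hD y v, hy]; rfl
    have hS : ∑ w, y w = 0 := by
      have h2 : ∑ v, (∑ w, y w - y v - SH m D y v) = 0 := Finset.sum_eq_zero fun v _ => h1 v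
      rw [Finset.sum_sub_distrib, Finset.sum_sub_distrib, hsum, Finset.sum_const,
        Finset.card_univ, hcard, nsmul_eq_mul] at h2
      push_cast at h2
      have h3 : ((m : ℝ) + k - 5) * ∑ w, y w = 0 := by linarith
      rcases mul_eq_zero.1 h3 with h4 | h4
      · exfalso
        have h5 : (5 : ℝ) ≤ m := by exact_mod_cast hm
        have h6 : (1 : ℝ) ≤ k := by exact_mod_cast hk
        linarith
      · exact h4
    have hK : ∀ v, y v + SH m D y v = 0 := fun v => by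
      have := h1 v
      rw [hS] at this
      linarith
    obtain ⟨hper, hsys⟩ := sys_of_K hm hr D y hK
    obtain ⟨t, ht1, ht2⟩ := hcert _ _ hsys
    refine ⟨t, ?_⟩
    funext v
    rcases v with i | s
    · have h7 : y (.inl i) = Yx (fun i => y (.inl i)) i := by rw [Yx_of_lt _ i.2]
      rw [h7, hper i i.2, ht1 _ (Nat.mod_lt _ (by norm_num))]
      rfl
    · rw [ht2 s]
      rfl
  · rintro ⟨t, rfl⟩
    set x : Fin m ⊕ Fin k → ℝ := Sum.elim (fun i : Fin m => P ((i : ℕ) % 5)) c with hx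
    have hK : ∀ v, x v + SH m D x v = 0 := K_of_sys hm hr D P c hsol
    have hS : ∑ w, x w = 0 := by
      have h2 : ∑ v, (x v + SH m D x v) = 0 := Finset.sum_eq_zero fun v _ => hK v
      rw [Finset.sum_add_distrib, hsum] at h2
      linarith
    rw [Matrix.mulVec_smul]
    have : (((gH m D hD)ᶜ).adjMatrix ℝ).mulVec x = 0 := by
      funext v
      rw [mulVec_compl D hD x v, hS]
      have := hK v
      show 0 - x v - SH m D x v = 0
      linarith
    rw [this, smul_zero]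


/-- the solution of `A x0 = e_a - e_b`. -/
noncomputable def x0 (m k : ℕ) : Fin m ⊕ Fin k → ℝ
  | .inl i => if (i : ℕ) = 3 then 1 else if (i : ℕ) = 2 then -1 else 0
  | .inr _ => 0

theorem x0_spec {m : ℕ} (hm : 6 ≤ m) (D : Win k) (v : Fin m ⊕ Fin k) :
    x0 m k v + SH m D (x0 m k) v =
      (Pi.single (.inl ⟨5, by omega⟩) 1 : Fin m ⊕ Fin k → ℝ) v -
      (Pi.single (.inl ⟨0, by omega⟩) 1 : Fin m ⊕ Fin k → ℝ) v := by
  have hY : ∀ c', c' < m → Yx (fun i => x0 m k (.inl i)) c' =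
      if c' = 3 then 1 else if c' = 2 then -1 else 0 := by
    intro c' hc'
    rw [Yx_of_lt _ hc']
    rfl
  have hm5 : 5 ≤ m := by omega
  have hz : ∀ s : Finset (Fin k), ∑ t ∈ s, x0 m k (.inr t) = 0 := fun s =>
    Finset.sum_eq_zero fun _ _ => rfl
  have hs : ∀ (i : Fin m) (c : ℕ) (hc : c < m), (Pi.single (.inl ⟨c, hc⟩) 1 : Fin m ⊕ Fin k → ℝ)
      (.inl i) = if (i : ℕ) = c then 1 else 0 := by
    intro i c hc
    rw [Pi.single_apply]
    congr 1
    simp [Fin.ext_iff]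
  have hs2 : ∀ (s : Fin k) (c : ℕ) (hc : c < m), (Pi.single (.inl ⟨c, hc⟩) 1 : Fin m ⊕ Fin k → ℝ)
      (.inr s) = 0 := by
    intro i c hc
    rw [Pi.single_apply, if_neg (by simp)]
  have hx : ∀ i : Fin m, x0 m k (.inl i) = if (i : ℕ) = 3 then 1 else if (i : ℕ) = 2 then -1 else 0 :=
    fun i => rfl
  rcases v with i | s
  · rw [hs, hs, hx]
    rcases cases_v hm5 i with hi | hi | hi | hi | ⟨j, hj, hi⟩
    · rw [SH_0 hm5 D _ i hi, hY 1 (by omega), hY 2 (by omega), hz, hi]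
      norm_num
    · rw [SH_1 hm5 D _ i hi, hY 0 (by omega), hY 2 (by omega), hY 3 (by omega), hz, hi]
      norm_num
    · rw [SH_2 hm5 D _ i hi, hY (m - 4) (by omega), hY (m - 3) (by omega), hY (m - 1) (by omega),
        hz]
      split_ifs <;> first | omega | norm_num
    · rw [SH_3 hm5 D _ i hi, hY (m - 3) (by omega), hY (m - 2) (by omega), hz]
      split_ifs <;> first | omega | norm_num
    · rw [SH_int D _ j hj i hi, hY j (by omega), hY (j + 1) (by omega), hY (j + 3) (by omega),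
        hY (j + 4) (by omega)]
      split_ifs <;> first | omega | norm_num
  · rw [SH_s hm5 D _ s, hY 0 (by omega), hY 1 (by omega), hY (m - 2) (by omega),
      hY (m - 1) (by omega), hz, hs2, hs2]
    have e1 : ¬ m - 2 = 3 := by omega
    have e2 : ¬ m - 2 = 2 := by omega
    have e3 : ¬ m - 1 = 3 := by omega
    have e4 : ¬ m - 1 = 2 := by omega
    simp [x0, e1, e2, e3, e4]

theorem x0_sum {m : ℕ} (hm : 6 ≤ m) : ∑ w, x0 m k w = 0 := by
  rw [Fintype.sum_sum_type]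
  have h2 : ∑ s : Fin k, x0 m k (.inr s) = 0 := Finset.sum_eq_zero fun _ _ => rfl
  have h1 : ∑ i : Fin m, x0 m k (.inl i) = ∑ i : Fin m, ((if (i : ℕ) = 3 then (1 : ℝ) else 0) +
      (if (i : ℕ) = 2 then (-1 : ℝ) else 0)) := by
    refine Finset.sum_congr rfl fun i _ => ?_
    show (if (i : ℕ) = 3 then (1 : ℝ) else if (i : ℕ) = 2 then -1 else 0) = _
    split_ifs <;> first | omega | norm_num
  rw [h1, h2, Finset.sum_add_distrib, sum_eq (fun _ => (1 : ℝ)) 3, sum_eq (fun _ => (-1 : ℝ)) 2,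
    Yx_of_lt _ (by omega), Yx_of_lt _ (by omega)]
  norm_num

/-- Data for the cyclic gluing. -/
def Seed (n : ℕ) : Prop :=
  ∃ (V : Type) (_ : Fintype V) (_ : DecidableEq V) (G : SimpleGraph V) (_ : DecidableRel G.Adj)
    (a b : V) (g x0 : V → ℝ), Fintype.card V = n ∧ G.IsRegularOfDegree (n - 5) ∧ G.Adj a b ∧
    2 ≤ Fintype.card V ∧
    (∀ v, g v ≠ 0) ∧ (∀ y : V → ℝ, (G.adjMatrix ℝ).mulVec y = 0 ↔ ∃ c : ℝ, y = c • g) ∧
    g a = g b ∧ (G.adjMatrix ℝ).mulVec x0 = Pi.single a 1 - Pi.single b 1 ∧ x0 a = x0 b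

theorem seed_of {m r n : ℕ} (hm : 6 ≤ m) (hr : m % 5 = r) (hk : 1 ≤ k) (hn : n = m + k)
    (D : Win k) (hD : Reg D)
    (P : ℕ → ℝ) (c : Fin k → ℝ) (hP : ∀ i, i < 5 → P i ≠ 0) (hc : ∀ s, c s ≠ 0)
    (hsol : Sys D r P c)
    (hcert : ∀ (Y : ℕ → ℝ) (z : Fin k → ℝ), Sys D r Y z →
      ∃ t : ℝ, (∀ i, i < 5 → Y i = t * P i) ∧ ∀ s, z s = t * c s) :
    Seed n := by
  have hm5 : 5 ≤ m := by omega
  have hcard : Fintype.card (Fin m ⊕ Fin k) = n := by simp [hn]
  obtain ⟨h1, h2⟩ := nut' hm5 hr hk D hD P c hP hc hsol hcert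
  refine ⟨Fin m ⊕ Fin k, inferInstance, inferInstance, (gH m D hD)ᶜ, inferInstance,
    .inl ⟨0, by omega⟩, .inl ⟨5, by omega⟩, _, x0 m k, hcard, ?_, ?_, by rw [hcard]; omega,
    h1, h2, ?_, ?_, ?_⟩
  · have h := (gH_regular hm5 D hD).compl
    rw [hcard] at h
    rwa [show n - 1 - 4 = n - 5 by omega] at h
  · rw [SimpleGraph.compl_adj]
    refine ⟨by simp, fun h => ?_⟩
    have h' : adjH m D (.inl ⟨0, by omega⟩) (.inl ⟨5, by omega⟩) := h
    simp only [adjH] at h'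
    omega
  · simp
  · funext v
    rw [mulVec_compl D hD _ v, x0_sum hm]
    have := x0_spec hm D v
    rw [Pi.sub_apply]
    linarith
  · rfl

theorem seed0 {n : ℕ} (hn : 11 ≤ n) (h5 : n % 5 = 0) : Seed n := by
  refine seed_of (m := n - 5) (r := 0) (k := 5) (by omega) (by omega) (by norm_num) (by omega)
    D0 reg0 P0 c0 ?_ ?_ sol0 cert0
  · intro i hi
    interval_cases i <;> simp [P0]
  · intro s
    fin_cases s <;> simp [c0]

theorem seed1 {n : ℕ} (hn : 17 ≤ n) (h5 : n % 5 = 1) : Seed n := by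
  refine seed_of (m := n - 11) (r := 0) (k := 11) (by omega) (by omega) (by norm_num) (by omega)
    D1 reg1 P1 c1 ?_ ?_ sol1 cert1
  · intro i hi
    interval_cases i <;> simp [P1]
  · intro s
    fin_cases s <;> simp [c1]

theorem seed2 {n : ℕ} (hn : 17 ≤ n) (h5 : n % 5 = 2) : Seed n := by
  refine seed_of (m := n - 9) (r := 3) (k := 9) (by omega) (by omega) (by norm_num) (by omega)
    D2 reg2 P2 c2 ?_ ?_ sol2 cert2
  · intro i hi
    interval_cases i <;> simp [P2]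
  · intro s
    fin_cases s <;> simp [c2]

theorem seed3 {n : ℕ} (hn : 19 ≤ n) (h5 : n % 5 = 3) : Seed n := by
  refine seed_of (m := n - 13) (r := 0) (k := 13) (by omega) (by omega) (by norm_num) (by omega)
    D3 reg3 P3 c3 ?_ ?_ sol3 cert3
  · intro i hi
    interval_cases i <;> simp [P3]
  · intro s
    fin_cases s <;> simp [c3]

theorem seed4 {n : ℕ} (hn : 19 ≤ n) (h5 : n % 5 = 4) : Seed n := by
  refine seed_of (m := n - 12) (r := 2) (k := 12) (by omega) (by omega) (by norm_num) (by omega)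
    D4 reg4 P4 c4 ?_ ?_ sol4 cert4
  · intro i hi
    interval_cases i <;> simp [P4]
  · intro s
    fin_cases s <;> simp [c4]

theorem seed {n : ℕ} (hn : 15 ≤ n) (h16 : n ≠ 16) (h18 : n ≠ 18) : Seed n := by
  have h5 : n % 5 < 5 := Nat.mod_lt _ (by norm_num)
  rcases (by omega : n % 5 = 0 ∨ n % 5 = 1 ∨ n % 5 = 2 ∨ n % 5 = 3 ∨ n % 5 = 4) with
    h | h | h | h | h
  · exact seed0 (by omega) h
  · exact seed1 (by omega) h
  · exact seed2 (by omega) h
  · exact seed3 (by omega) h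
  · exact seed4 (by omega) h

/-- every `n ≥ 15` is the order of an `(n - 5)`-regular nut graph. -/
theorem mem_five {n : ℕ} (hn : 15 ≤ n) : n ∈ N (n - 5) := by
  have h5 : n % 5 < 5 := Nat.mod_lt _ (by norm_num)
  rcases (by omega : n % 5 = 0 ∨ n % 5 = 1 ∨ n % 5 = 2 ∨ n % 5 = 3 ∨ n % 5 = 4) with
    h | h | h | h | h
  · exact fam0 (by omega) h
  · exact fam1 (by omega) h
  · exact fam2 (by omega) h
  · exact fam3 (by omega) h
  · exact fam4 (by omega) h

end Pool.Agent.TH991.Nut
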