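import Pool.Agent.TH991.Nut.Main

set_option autoImplicit false
open Finset

namespace Pool.Agent.TH991.Nut

/-- NF (Fowler's construction): a `ρ`-regular nut graph of order `n` gives one of order `n + 2 ρ`. -/
def St_fowler : Prop := ∀ (ρ n : ℕ), 2 ≤ ρ → n ∈ N ρ → n + 2 * ρ ∈ N ρ

/-- NG (cyclic gluing of `t` copies along the edge `a b`). -/
def St_glue : Prop :=
  ∀ (ρ t : ℕ) (V : Type) [Fintype V] [DecidableEq V] (G : SimpleGraph V) [DecidableRel G.Adj]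
    (a b : V) (g x0 : V → ℝ), 1 ≤ t → G.IsRegularOfDegree ρ → G.Adj a b → 2 ≤ Fintype.card V →
    (∀ v, g v ≠ 0) → (∀ y : V → ℝ, (G.adjMatrix ℝ).mulVec y = 0 ↔ ∃ c : ℝ, y = c • g) →
    g a = g b → (G.adjMatrix ℝ).mulVec x0 = Pi.single a 1 - Pi.single b 1 → x0 a = x0 b →
    t * Fintype.card V ∈ N ρ

/-- NA (arithmetic). -/
def St_arith : Prop :=
  ∀ ρ : ℕ, 1 ≤ ρ → ¬ 5 ∣ ρ → ∃ n₀ : ℕ, ∀ n : ℕ, n₀ ≤ n → Even (n * ρ) →
    ∃ t j : ℕ, 1 ≤ t ∧ n = t * (ρ + 5) + j * (2 * ρ)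

end Pool.Agent.TH991.Nut
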